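import Pool.Agent.helper37.P2.SpecB

set_option autoImplicit false

/-!
Row QRE of project P2 (MP_063734_an): the occupation functional of the random discs is bounded from below near K.
-/

open scoped ContDiff Topology
open MeasureTheory Filter Set Metric MvPolynomial Pool.Agent.helper37.QA

namespace Pool.Agent.P2

theorem QRE_contDiff {m : ℕ} (G : Fin m → MvPolynomial (Fin m) ℂ) : ContDiff ℂ 1 (pmap G) := by
  rw [contDiff_pi]
  intro i
  have h : (fun x : Fin m → ℂ => pmap G x i) =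
      fun x => ∑ s ∈ (G i).support, (G i).coeff s * ∏ j, x j ^ s j := by
    funext x
    exact eval_eq' x (G i)
  rw [h]
  refine ContDiff.sum fun s _ => ?_
  refine contDiff_const.mul ?_
  refine contDiff_prod fun j _ => ?_
  exact (contDiff_apply ℂ ℂ j).pow _

theorem QRE_near_mono {r s : ℝ} (h : r ≤ s) {A : M3} (hA : Near r A) : Near s A :=
  fun i j => (hA i j).trans_le h

theorem QRE_rad_mono {r s : ℝ} (h : r ≤ s) {U' U : Set (PP 2)} (hR : Rad s U' U) : Rad r U' U :=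
  fun A hA Z hZ => hR A (QRE_near_mono h hA) Z hZ

theorem QRE_cone_singleton {Z : E3} (h : Z ≠ 0) : Z ∈ cone ({toPP ⟨Z, h⟩} : Set (PP 2)) := ⟨h, rfl⟩

theorem QRE_cone_mono {S T : Set (PP 2)} (h : S ⊆ T) : cone S ⊆ cone T := fun _ hx => ⟨hx.1, h hx.2⟩

theorem QRE_Ar_ex {r : ℝ} {S : Set (PP 2)} {x : PP 2} (h : x ∈ Ar r S) : ∃ y ∈ S, x ∈ Ar r {y} := by
  obtain ⟨Z, hZ, A, hA, h0, rfl⟩ := h
  exact ⟨toPP ⟨Z, hZ.1⟩, hZ.2, Z, QRE_cone_singleton hZ.1, A, hA, h0, rfl⟩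

theorem QRE_Ar_mono {r s : ℝ} (hrs : r ≤ s) {S T : Set (PP 2)} (hST : S ⊆ T) : Ar r S ⊆ Ar s T := by
  rintro x ⟨Z, hZ, A, hA, h0, rfl⟩
  exact ⟨Z, QRE_cone_mono hST hZ, A, QRE_near_mono hrs hA, h0, rfl⟩

theorem QRE_Ar_rad {r : ℝ} {U' U : Set (PP 2)} (hR : Rad r U' U) : Ar r U' ⊆ U := by
  rintro x ⟨Z, hZ, A, hA, h0, rfl⟩
  exact (hR A hA Z hZ).2

/-- product of matrices -/
def QRE_mm (A B : M3) : M3 := fun i j => ∑ k, A i k * B k j

theorem QRE_mv_mm (A B : M3) (Z : E3) : mv (QRE_mm A B) Z = mv A (mv B Z) := by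
  funext i
  simp only [mv, QRE_mm, Fin.sum_univ_three]
  ring

theorem QRE_mv_smul (A : M3) (c : ℂ) (Z : E3) : mv A (c • Z) = c • mv A Z := by
  funext i
  simp only [mv, Pi.smul_apply, smul_eq_mul, Finset.mul_sum]
  exact Finset.sum_congr rfl fun j _ => by ring

theorem QRE_near_mm {s : ℝ} (hs1 : s ≤ 1) {A B : M3} (hA : Near s A) (hB : Near s B) :
    Near (5 * s) (QRE_mm A B) := by
  intro i j
  have hs : 0 < s := (norm_nonneg _).trans_lt (hA i j)
  have key : QRE_mm A B i j - one3 i j =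
      (A i 0 - one3 i 0) * (B 0 j - one3 0 j) + (A i 1 - one3 i 1) * (B 1 j - one3 1 j) +
      (A i 2 - one3 i 2) * (B 2 j - one3 2 j) + (A i j - one3 i j) + (B i j - one3 i j) := by
    fin_cases i <;> fin_cases j <;> simp [QRE_mm, one3, Fin.sum_univ_three] <;> ring
  rw [key]
  have h2 : ∀ k, ‖(A i k - one3 i k) * (B k j - one3 k j)‖ < s := by
    intro k
    rw [norm_mul]
    have h3 := hA i k
    have h4 := hB k j
    calc ‖A i k - one3 i k‖ * ‖B k j - one3 k j‖ ≤ 1 * ‖B k j - one3 k j‖ :=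
          mul_le_mul_of_nonneg_right (h3.le.trans hs1) (norm_nonneg _)
      _ = ‖B k j - one3 k j‖ := one_mul _
      _ < s := h4
  have h5 := hA i j
  have h6 := hB i j
  have n1 := norm_add_le ((A i 0 - one3 i 0) * (B 0 j - one3 0 j) + (A i 1 - one3 i 1) * (B 1 j - one3 1 j) +
      (A i 2 - one3 i 2) * (B 2 j - one3 2 j) + (A i j - one3 i j)) (B i j - one3 i j)
  have n2 := norm_add_le ((A i 0 - one3 i 0) * (B 0 j - one3 0 j) + (A i 1 - one3 i 1) * (B 1 j - one3 1 j) +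
      (A i 2 - one3 i 2) * (B 2 j - one3 2 j)) (A i j - one3 i j)
  have n3 := norm_add_le ((A i 0 - one3 i 0) * (B 0 j - one3 0 j) + (A i 1 - one3 i 1) * (B 1 j - one3 1 j))
      ((A i 2 - one3 i 2) * (B 2 j - one3 2 j))
  have n4 := norm_add_le ((A i 0 - one3 i 0) * (B 0 j - one3 0 j)) ((A i 1 - one3 i 1) * (B 1 j - one3 1 j))
  have := h2 0
  have := h2 1
  have := h2 2
  linarith

theorem QRE_Ar_comp {s : ℝ} (hs1 : s ≤ 1) {x y p : PP 2} (hx : x ∈ Ar s {y}) (hy : y ∈ Ar s {p}) :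
    x ∈ Ar (5 * s) {p} := by
  obtain ⟨Z, hZ, A, hA, h0, rfl⟩ := hx
  obtain ⟨W, hW, B, hB, h1, hyB⟩ := hy
  obtain ⟨hZ0, hZy⟩ := hZ
  rw [mem_singleton_iff, hyB] at hZy
  obtain ⟨c, hc⟩ := (Projectivization.mk_eq_mk_iff' ℂ Z (mv B W) hZ0 h1).1 hZy
  have hc0 : c ≠ 0 := by
    rintro rfl
    rw [zero_smul] at hc
    exact hZ0 hc.symm
  have e : mv A Z = c • mv (QRE_mm A B) W := by
    rw [← hc, QRE_mv_smul, QRE_mv_mm]
  have h2 : mv (QRE_mm A B) W ≠ 0 := by
    intro h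
    rw [h, smul_zero] at e
    exact h0 e
  refine ⟨W, hW, QRE_mm A B, QRE_near_mm hs1 hA hB, h2, ?_⟩
  exact toPP_eq h0 h2 c e.symm

theorem QRE_bmp {s : ℂ} (h : bmp s ≠ 0) : ‖s‖ < 1 := by
  by_contra hcon
  apply h
  unfold bmp
  apply Real.smoothTransition.zero_of_nonpos
  rw [Complex.normSq_eq_norm_sq]
  have : 1 ≤ ‖s‖ := not_lt.1 hcon
  nlinarith

theorem QRE_rho {r : ℝ} (hr : 0 < r) {A : M3} (h : rho r A ≠ 0) : Near r A := by
  intro i j
  have h1 := (Finset.prod_ne_zero_iff.1 h) i (Finset.mem_univ i)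
  have h2 := (Finset.prod_ne_zero_iff.1 h1) j (Finset.mem_univ j)
  unfold phr at h2
  have h3 := QRE_bmp (right_ne_zero_of_mul h2)
  rw [norm_mul, norm_inv, Complex.norm_real, Real.norm_of_nonneg hr.le, inv_mul_lt_iff₀ hr, mul_one] at h3
  exact h3

section step

variable {d : ℕ} {f : Endo 2 d} {U : Set (PP 2)} {r : ℝ}

theorem QRE_dsc (hRAD : RAD_stmt) (_hr : 0 < r) (hR : Rad r (f.map '' closure U) U) {Z : ℂ → E3}
    (hZ : Dsc (f.map '' closure U) Z) {A : M3} (hA : Near r A) :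
    Dsc (f.map '' closure U) (fun z => It f 1 (mv A (Z z))) := by
  obtain ⟨h1, h2⟩ := hRAD.2.2.2 U Z r _ A hR hA hZ
  refine ⟨?_, ?_⟩
  · have h3 : Differentiable ℂ (It f 1) := (QRE_contDiff (iter f.F 1)).differentiable (by norm_num)
    exact h3.comp_differentiableOn h1
  · intro z hz
    obtain ⟨h3, h4⟩ := h2 z hz
    refine ⟨pmap_ne (iter_nd f.nondeg 1) h3, ?_⟩
    refine ⟨_, subset_closure h4, ?_⟩
    have := map_iter f 1 h3
    rw [Function.iterate_one] at this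
    exact this

theorem QRE_stp_mono (hRAD : RAD_stmt) (hr : 0 < r) (hR : Rad r (f.map '' closure U) U)
    {G G' : (ℂ → E3) → ENNReal} (hG : ∀ Z, Dsc (f.map '' closure U) Z → G Z ≤ G' Z) {Z : ℂ → E3}
    (hZ : Dsc (f.map '' closure U) Z) : stp f r G Z ≤ stp f r G' Z := by
  refine lintegral_mono fun A => ?_
  by_cases h : rho r A = 0
  · rw [h, ENNReal.ofReal_zero, zero_mul, zero_mul]
  · exact mul_le_mul_right (hG _ (QRE_dsc hRAD hr hR hZ (QRE_rho hr h))) _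

theorem QRE_iter_mono (hRAD : RAD_stmt) (hr : 0 < r) (hR : Rad r (f.map '' closure U) U)
    {G G' : (ℂ → E3) → ENNReal} (hG : ∀ Z, Dsc (f.map '' closure U) Z → G Z ≤ G' Z) (k : ℕ) :
    ∀ Z, Dsc (f.map '' closure U) Z → (stp f r)^[k] G Z ≤ (stp f r)^[k] G' Z := by
  induction k with
  | zero => exact hG
  | succ k ih =>
    intro Z hZ
    rw [Function.iterate_succ_apply', Function.iterate_succ_apply']
    exact QRE_stp_mono hRAD hr hR ih hZ

theorem QRE_iter_const (κ : ENNReal) (G : (ℂ → E3) → ENNReal) (k : ℕ) :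
    ∀ Z, κ * (stp f r)^[k] G Z ≤ (stp f r)^[k] (fun Z => κ * G Z) Z := by
  induction k with
  | zero => exact fun Z => le_rfl
  | succ k ih =>
    intro Z
    rw [Function.iterate_succ_apply', Function.iterate_succ_apply']
    refine (lintegral_const_mul_le κ _).trans ?_
    refine lintegral_mono fun A => ?_
    calc κ * (ENNReal.ofReal (rho r A) * (stp f r)^[k] G (fun z => It f 1 (mv A (Z z))))
        = ENNReal.ofReal (rho r A) * (κ * (stp f r)^[k] G (fun z => It f 1 (mv A (Z z)))) := by ring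
      _ ≤ ENNReal.ofReal (rho r A) * (stp f r)^[k] (fun Z => κ * G Z) (fun z => It f 1 (mv A (Z z))) :=
          mul_le_mul_right (ih _) _

theorem QRE_Tr_sub {s : ℝ} (hR : Rad s (f.map '' closure U) U) {S : Set (PP 2)}
    (hS : S ⊆ f.map '' closure U) (k : ℕ) : (Tr f s)^[k] S ⊆ f.map '' closure U := by
  induction k with
  | zero => exact hS
  | succ k ih =>
    rw [Function.iterate_succ_apply']
    rintro y ⟨q, hq, rfl⟩
    exact ⟨q, subset_closure (QRE_Ar_rad hR (QRE_Ar_mono le_rfl ih hq)), rfl⟩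

/-- the backward induction along a chain -/
theorem QRE_chain (hRAD : RAD_stmt) (hTRS : TRS_stmt) (hd : 2 ≤ d) (hG0 : Good0 f U) (hr : 0 < r)
    (hr1 : r ≤ 1 / 100) (hR : Rad r (f.map '' closure U) U) {s : ℝ} (hs : s ≤ r / 2)
    {S : Set (PP 2)} (hS : S ⊆ f.map '' closure U) (k : ℕ) :
    ∀ y ∈ (Tr f s)^[k] S, ∀ 𝒩 : Set (PP 2), IsOpen 𝒩 → y ∈ 𝒩 → ∃ p ∈ S, ∃ Pn : Set (PP 2), IsOpen Pn ∧ p ∈ Pn ∧
      ∃ κ : ENNReal, κ ≠ 0 ∧ ∀ Z, Dsc (f.map '' closure U) Z → κ * arm Pn Z ≤ (stp f r)^[k] (arm 𝒩) Z := by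
  induction k with
  | zero =>
    intro y hy 𝒩 hN hyN
    exact ⟨y, hy, 𝒩, hN, hyN, 1, one_ne_zero, fun Z _ => by rw [one_mul]; exact le_rfl⟩
  | succ k ih =>
    intro y hy 𝒩 hN hyN
    rw [Function.iterate_succ_apply'] at hy
    obtain ⟨q, hq, rfl⟩ := hy
    obtain ⟨p', hp', hq'⟩ := QRE_Ar_ex hq
    have hp'U : p' ∈ f.map '' closure U :=
      QRE_Tr_sub (QRE_rad_mono (hs.trans (by linarith)) hR) hS k hp'
    obtain ⟨Pn', c', hPo, hpP, hc', hT⟩ := hTRS d f U r hd hG0 hr hr1 hR p' hp'U q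
      (QRE_Ar_mono hs subset_rfl hq') 𝒩 hN hyN
    obtain ⟨p, hp, Pn, hPn, hpPn, κ, hκ, hκZ⟩ := ih p' hp' Pn' hPo hpP
    refine ⟨p, hp, Pn, hPn, hpPn, ENNReal.ofReal c' * κ, ?_, ?_⟩
    · exact mul_ne_zero (by simpa using hc') hκ
    · intro Z hZ
      rw [Function.iterate_succ_apply]
      calc ENNReal.ofReal c' * κ * arm Pn Z = ENNReal.ofReal c' * (κ * arm Pn Z) := by ring
        _ ≤ ENNReal.ofReal c' * (stp f r)^[k] (arm Pn') Z := mul_le_mul_right (hκZ Z hZ) _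
        _ ≤ (stp f r)^[k] (fun Z => ENNReal.ofReal c' * arm Pn' Z) Z := QRE_iter_const _ _ _ _
        _ ≤ (stp f r)^[k] (stp f r (arm 𝒩)) Z := QRE_iter_mono hRAD hr hR hT k Z hZ

theorem QRE_arm_mono {S T : Set (PP 2)} (h : S ⊆ T) (Z : ℂ → E3) : arm S Z ≤ arm T Z := by
  refine lintegral_mono fun z => ?_
  by_cases h1 : Z z ∈ cone S
  · simp only [h1, QRE_cone_mono h h1, if_true]
    exact le_rfl
  · simp only [h1, if_false]
    exact zero_le

theorem QRE_eta {z : ℂ} (h : z ∉ ball (0 : ℂ) 1) : eta z = 0 := by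
  apply Real.smoothTransition.zero_of_nonpos
  rw [mem_ball_zero_iff, not_lt] at h
  rw [Complex.normSq_eq_norm_sq]
  nlinarith

theorem QRE_nq_cont : Continuous (nq : E3 → ℝ) :=
  continuous_finsetSum _ fun i _ => Complex.continuous_normSq.comp (continuous_apply i)

theorem QRE_nq_pos {Z : E3} (h : Z ≠ 0) : 0 < nq Z := by
  obtain ⟨j, hj⟩ := Function.ne_iff.1 h
  have h1 : 0 < Complex.normSq (Z j) := Complex.normSq_pos.2 hj
  refine h1.trans_le ?_
  exact Finset.single_le_sum (f := fun i => Complex.normSq (Z i)) (fun j _ => Complex.normSq_nonneg (Z j))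
    (Finset.mem_univ j)

theorem QRE_crs_cont : Continuous (fun p : E3 × E3 => crs p.1 p.2) := by
  refine continuous_pi fun i => ?_
  have h1 : ∀ j, Continuous fun p : E3 × E3 => p.1 j := fun j => (continuous_apply j).comp continuous_fst
  have h2 : ∀ j, Continuous fun p : E3 × E3 => p.2 j := fun j => (continuous_apply j).comp continuous_snd
  fin_cases i
  · exact ((h1 1).mul (h2 2)).sub ((h1 2).mul (h2 1))
  · exact ((h1 2).mul (h2 0)).sub ((h1 0).mul (h2 2))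
  · exact ((h1 0).mul (h2 1)).sub ((h1 1).mul (h2 0))

open Classical in
theorem QRE_meas {U' : Set (PP 2)} {S : Set (PP 2)} (hS : IsOpen S) {Z : ℂ → E3} (hZ : Dsc U' Z) :
    Measurable fun z => if Z z ∈ cone S then ENNReal.ofReal (eta z ^ 2 * ar Z z) else 0 := by
  have hc : ContinuousOn Z (ball 0 1) := hZ.1.continuousOn
  have hdc : ContinuousOn (deriv Z) (ball 0 1) := (hZ.1.deriv isOpen_ball).continuousOn
  have ho : IsOpen (ball (0 : ℂ) 1 ∩ Z ⁻¹' cone S) := hc.isOpen_inter_preimage isOpen_ball (cone_open hS)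
  have hg : ContinuousOn (fun z => ENNReal.ofReal (eta z ^ 2 * ar Z z)) (ball (0 : ℂ) 1) := by
    refine ENNReal.continuous_ofReal.comp_continuousOn ?_
    refine ContinuousOn.mul ?_ ?_
    · refine (Continuous.pow ?_ 2).continuousOn
      exact Real.smoothTransition.continuous.comp (continuous_const.sub (continuous_const.mul Complex.continuous_normSq))
    · refine ContinuousOn.div ?_ ?_ ?_
      · exact QRE_nq_cont.comp_continuousOn (QRE_crs_cont.comp_continuousOn (hc.prodMk hdc))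
      · exact (continuousOn_const.mul ((QRE_nq_cont.comp_continuousOn hc).pow 2))
      · intro z hz
        have := QRE_nq_pos (hZ.2 z hz).1
        positivity
  have e : (fun z => if Z z ∈ cone S then ENNReal.ofReal (eta z ^ 2 * ar Z z) else 0) =
      (ball (0 : ℂ) 1 ∩ Z ⁻¹' cone S).piecewise (fun z => ENNReal.ofReal (eta z ^ 2 * ar Z z)) (fun _ => 0) := by
    funext z
    by_cases h1 : z ∈ ball (0 : ℂ) 1
    · by_cases h2 : Z z ∈ cone S
      · have hm : z ∈ ball (0 : ℂ) 1 ∩ Z ⁻¹' cone S := ⟨h1, h2⟩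
        rw [Set.piecewise_eq_of_mem _ _ _ hm, if_pos h2]
      · have hm : z ∉ ball (0 : ℂ) 1 ∩ Z ⁻¹' cone S := fun h => h2 h.2
        rw [Set.piecewise_eq_of_notMem _ _ _ hm, if_neg h2]
    · have hm : z ∉ ball (0 : ℂ) 1 ∩ Z ⁻¹' cone S := fun h => h1 h.1
      rw [Set.piecewise_eq_of_notMem _ _ _ hm, QRE_eta h1]
      simp
  rw [e]
  exact ContinuousOn.measurable_piecewise (hg.mono inter_subset_left) continuousOn_const ho.measurableSet

theorem QRE_arm_union {U' : Set (PP 2)} {S T : Set (PP 2)} (hS : IsOpen S) {Z : ℂ → E3} (hZ : Dsc U' Z) :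
    arm (S ∪ T) Z ≤ arm S Z + arm T Z := by
  unfold arm
  rw [← lintegral_add_left (QRE_meas hS hZ)]
  refine lintegral_mono fun z => ?_
  by_cases h1 : Z z ∈ cone S
  · simp only [h1, if_true]
    by_cases h2 : Z z ∈ cone (S ∪ T)
    · simp only [h2, if_true]
      exact le_self_add
    · simp only [h2, if_false]
      exact zero_le
  · by_cases h3 : Z z ∈ cone T
    · simp only [h1, h3, if_true, if_false, zero_add]
      by_cases h2 : Z z ∈ cone (S ∪ T)
      · simp only [h2, if_true]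
        exact le_rfl
      · simp only [h2, if_false]
        exact zero_le
    · have h2 : Z z ∉ cone (S ∪ T) := by
        rintro ⟨h4, h5 | h5⟩
        · exact h1 ⟨h4, h5⟩
        · exact h3 ⟨h4, h5⟩
      simp only [h2, if_false]
      exact zero_le

theorem QRE_half {κ₁ κ₂ a b T : ENNReal} (h1 : κ₁ * a ≤ T) (h2 : κ₂ * b ≤ T) :
    min κ₁ κ₂ / 2 * (a + b) ≤ T := by
  have e1 : min κ₁ κ₂ / 2 * a ≤ T / 2 := by
    calc min κ₁ κ₂ / 2 * a = (min κ₁ κ₂ * a) / 2 := by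
          rw [div_eq_mul_inv, div_eq_mul_inv]; ring
      _ ≤ T / 2 := by
          refine ENNReal.div_le_div_right ?_ _
          exact (mul_le_mul_left (min_le_left _ _) _).trans h1
  have e2 : min κ₁ κ₂ / 2 * b ≤ T / 2 := by
    calc min κ₁ κ₂ / 2 * b = (min κ₁ κ₂ * b) / 2 := by
          rw [div_eq_mul_inv, div_eq_mul_inv]; ring
      _ ≤ T / 2 := by
          refine ENNReal.div_le_div_right ?_ _
          exact (mul_le_mul_left (min_le_right _ _) _).trans h2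
  rw [mul_add]
  calc min κ₁ κ₂ / 2 * a + min κ₁ κ₂ / 2 * b ≤ T / 2 + T / 2 := add_le_add e1 e2
    _ = T := ENNReal.add_halves T

theorem QRE_half_ne {κ₁ κ₂ : ENNReal} (h1 : κ₁ ≠ 0) (h2 : κ₂ ≠ 0) : min κ₁ κ₂ / 2 ≠ 0 := by
  rw [div_eq_mul_inv]
  refine mul_ne_zero ?_ ?_
  · rcases min_choice κ₁ κ₂ with h | h <;> rw [h]
    · exact h1
    · exact h2
  · simp

/-- the first step, from all points of the ball -/
theorem QRE_first (hTRS : TRS_stmt) (hd : 2 ≤ d) (hG0 : Good0 f U) (hr : 0 < r)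
    (hr1 : r ≤ 1 / 100) (hR : Rad r (f.map '' closure U) U) {B : Set (PP 2)}
    (hB : closure B ⊆ f.map '' closure U) {q : PP 2} (hq : ∀ p ∈ closure B, q ∈ Ar (r / 2) {p})
    {𝒩 : Set (PP 2)} (hN : IsOpen 𝒩) (hqN : f.map q ∈ 𝒩) :
    ∃ κ : ENNReal, κ ≠ 0 ∧ ∀ Z, Dsc (f.map '' closure U) Z → κ * arm B Z ≤ stp f r (arm 𝒩) Z := by
  have hcpt : IsCompact (closure B) := isClosed_closure.isCompact
  have key : ∃ V : Set (PP 2), IsOpen V ∧ closure B ⊆ V ∧
      ∃ κ : ENNReal, κ ≠ 0 ∧ ∀ Z, Dsc (f.map '' closure U) Z → κ * arm V Z ≤ stp f r (arm 𝒩) Z := by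
    refine hcpt.induction_on (p := fun s => ∃ V : Set (PP 2), IsOpen V ∧ s ⊆ V ∧
      ∃ κ : ENNReal, κ ≠ 0 ∧ ∀ Z, Dsc (f.map '' closure U) Z → κ * arm V Z ≤ stp f r (arm 𝒩) Z) ?_ ?_ ?_ ?_
    · refine ⟨∅, isOpen_empty, subset_rfl, 1, one_ne_zero, fun Z _ => ?_⟩
      have h0 : arm ∅ Z = 0 := by
        unfold arm
        have : ∀ z, ¬ Z z ∈ cone (∅ : Set (PP 2)) := fun z h => h.2
        simp only [this, if_false, lintegral_zero]
      rw [h0, mul_zero]
      exact zero_le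
    · rintro s t hst ⟨V, hV, htV, h⟩
      exact ⟨V, hV, hst.trans htV, h⟩
    · rintro s t ⟨V, hV, hsV, κ, hκ, h⟩ ⟨V', hV', htV, κ', hκ', h'⟩
      refine ⟨V ∪ V', hV.union hV', union_subset_union hsV htV, min κ κ' / 2, QRE_half_ne hκ hκ', ?_⟩
      intro Z hZ
      exact (mul_le_mul_right (QRE_arm_union hV hZ) _).trans (QRE_half (h Z hZ) (h' Z hZ))
    · intro p hp
      obtain ⟨Pn, c, hPo, hpP, hc, hT⟩ := hTRS d f U r hd hG0 hr hr1 hR p (hB hp) q (hq p hp) 𝒩 hN hqN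
      refine ⟨Pn, mem_nhdsWithin_of_mem_nhds (hPo.mem_nhds hpP), Pn, hPo, subset_rfl, ENNReal.ofReal c, ?_, hT⟩
      simpa using hc
  obtain ⟨V, -, hBV, κ, hκ, h⟩ := key
  refine ⟨κ, hκ, fun Z hZ => ?_⟩
  exact (mul_le_mul_right (QRE_arm_mono (subset_closure.trans hBV) Z) _).trans (h Z hZ)

end step

theorem QRE_closed {K : Set (PP 2)} {Us : ℕ → Set (PP 2)} (hanti : ∀ n, closure (Us (n + 1)) ⊆ Us n)
    (hK : K = ⋂ n, Us n) : IsClosed K := by
  have : K = ⋂ n, closure (Us (n + 1)) := by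
    rw [hK]
    apply subset_antisymm
    · exact subset_iInter fun n => (iInter_subset _ (n + 1)).trans subset_closure
    · exact iInter_mono fun n => hanti n
  rw [this]
  exact isClosed_iInter fun n => isClosed_closure

theorem QRE (hMIX : MIX_stmt) (hSTA : STA_stmt) (hTRS : TRS_stmt) (hOCC : OCC_stmt) (hRAD : RAD_stmt) :
    QRE_stmt := by
  classical
  intro d f Us K r hd hC hr hr1 hR
  set U : Set (PP 2) := Us 0 with hU
  set r₁ : ℝ := r / 1000 with hr₁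
  have hr₁0 : 0 < r₁ := by rw [hr₁]; positivity
  have hG0 : Good0 f U := hC.good
  obtain ⟨m, B, c, C, hc, hC0, hB, hS⟩ := hSTA d f U r₁ hd hG0 hr₁0
  have hBsub : ∀ i, B i ⊆ f.map '' closure U := fun i => (hB i).2.1.trans (image_mono subset_closure)
  have hclosed : IsClosed (f.map '' closure U) :=
    (isClosed_closure.isCompact.image (map_cont f)).isClosed
  have hBcl : ∀ i, closure (B i) ⊆ f.map '' closure U := fun i => hclosed.closure_subset_iff.2 (hBsub i)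
  -- the number of steps
  have hN : ∃ N : ℕ, ∀ i, Charged f (B i) → ∀ n ≥ N, K ⊆ Ar r₁ ((Tr f r₁)^[n] (B i)) := by
    have h1 : ∀ i, ∃ N : ℕ, Charged f (B i) → ∀ n ≥ N, K ⊆ Ar r₁ ((Tr f r₁)^[n] (B i)) := by
      intro i
      by_cases hch : Charged f (B i)
      · obtain ⟨N, hN⟩ := hMIX d f Us K r₁ hd hC hr₁0 (by rw [hr₁]; linarith)
          (QRE_rad_mono (by rw [hr₁]; linarith) hR) (B i) (hB i).1 (hB i).2.1 hch
        exact ⟨N, fun _ => hN⟩
      · exact ⟨0, fun h => absurd h hch⟩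
    choose N hN using h1
    refine ⟨Finset.univ.sup N, fun i hi n hn => hN i hi n ?_⟩
    exact (Finset.le_sup (Finset.mem_univ i)).trans hn
  obtain ⟨N1, hN1⟩ := hN
  have hr8 : 0 < r / 8 := by positivity
  have hR8 : Rad (r / 8) (f.map '' closure U) U := QRE_rad_mono (by linarith) hR
  have hKcpt : IsCompact K := (QRE_closed hC.anti hC.inter).isCompact
  -- one charged ball
  have hone : ∀ i, ∃ V : Set (PP 2), IsOpen V ∧ K ⊆ V ∧ ∃ κ : ENNReal, κ ≠ 0 ∧ (Charged f (B i) →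
      ∀ (Z : ℂ → E3) (h : E3 → ENNReal), Dsc (f.map '' closure U) Z → Measurable h →
        (∀ (Y : E3) (c : ℂ), c ≠ 0 → h (c • Y) = h Y) →
        κ * arm (B i) Z * (∫⁻ Y in closedBall (0 : E3) 1 ∩ cone V, h Y) ≤
          (stp f (r / 8))^[N1 + 1] (Occ (r / 64) h) Z) := by
    intro i
    by_cases hch : Charged f (B i)
    swap
    · exact ⟨univ, isOpen_univ, subset_univ _, 1, one_ne_zero, fun h => absurd h hch⟩
    refine hKcpt.induction_on (p := fun s => ∃ V : Set (PP 2), IsOpen V ∧ s ⊆ V ∧ ∃ κ : ENNReal, κ ≠ 0 ∧ (Charged f (B i) →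
      ∀ (Z : ℂ → E3) (h : E3 → ENNReal), Dsc (f.map '' closure U) Z → Measurable h →
        (∀ (Y : E3) (c : ℂ), c ≠ 0 → h (c • Y) = h Y) →
        κ * arm (B i) Z * (∫⁻ Y in closedBall (0 : E3) 1 ∩ cone V, h Y) ≤
          (stp f (r / 8))^[N1 + 1] (Occ (r / 64) h) Z)) ?_ ?_ ?_ ?_
    · refine ⟨∅, isOpen_empty, subset_rfl, 1, one_ne_zero, fun _ Z h _ _ _ => ?_⟩
      have : cone (∅ : Set (PP 2)) = ∅ := by
        ext x
        exact ⟨fun h => h.2, fun h => h.elim⟩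
      rw [this, inter_empty, Measure.restrict_empty, lintegral_zero_measure, mul_zero]
      exact zero_le
    · rintro s t hst ⟨V, hV, htV, h⟩
      exact ⟨V, hV, hst.trans htV, h⟩
    · rintro s t ⟨V, hV, hsV, κ, hκ, h⟩ ⟨V', hV', htV, κ', hκ', h'⟩
      refine ⟨V ∪ V', hV.union hV', union_subset_union hsV htV, min κ κ' / 2, QRE_half_ne hκ hκ', ?_⟩
      intro hch Z g hZ hg hgh
      have e1 := h hch Z g hZ hg hgh
      have e2 := h' hch Z g hZ hg hgh
      have e3 : (∫⁻ Y in closedBall (0 : E3) 1 ∩ cone (V ∪ V'), g Y) ≤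
          (∫⁻ Y in closedBall (0 : E3) 1 ∩ cone V, g Y) + ∫⁻ Y in closedBall (0 : E3) 1 ∩ cone V', g Y := by
        have hsub : closedBall (0 : E3) 1 ∩ cone (V ∪ V') ⊆
            (closedBall (0 : E3) 1 ∩ cone V) ∪ (closedBall (0 : E3) 1 ∩ cone V') := by
          rintro x ⟨hx, hx1, hx2 | hx2⟩
          · exact Or.inl ⟨hx, hx1, hx2⟩
          · exact Or.inr ⟨hx, hx1, hx2⟩
        exact (lintegral_mono_set hsub).trans (lintegral_union_le _ _ _)
      rw [mul_assoc] at e1 e2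
      refine le_trans ?_ (QRE_half e1 e2)
      rw [mul_assoc, ← mul_add]
      exact mul_le_mul_right (mul_le_mul_right e3 _) _
    · intro x hx
      obtain ⟨y, hy, hxy⟩ := QRE_Ar_ex (hN1 i hch (N1 + 1) (Nat.le_succ _) hx)
      have hR₁ : Rad r₁ (f.map '' closure U) U := QRE_rad_mono (by rw [hr₁]; linarith) hR
      have hyU : y ∈ f.map '' closure U := QRE_Tr_sub hR₁ (hBsub i) _ hy
      obtain ⟨Pn, 𝒩, c₂, hPo, hNo, hyP, hxN, hc₂, hO⟩ := hOCC d f U (r / 64) hd hG0 (by positivity) (by linarith)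
        y hyU x (QRE_Ar_mono (by rw [hr₁]; linarith) subset_rfl hxy)
      rw [Function.iterate_succ_apply] at hy
      have hTB : Tr f r₁ (B i) ⊆ f.map '' closure U := QRE_Tr_sub hR₁ (hBsub i) 1
      obtain ⟨p₁, hp₁, P₁, hP₁o, hp₁P, κ₁, hκ₁, hch1⟩ := QRE_chain hRAD hTRS hd hG0 hr8 (by linarith) hR8
        (s := r₁) (by rw [hr₁]; linarith) hTB N1 y hy Pn hPo hyP
      obtain ⟨q₀, hq₀, rfl⟩ := hp₁
      obtain ⟨p₀, hp₀, hq₀p⟩ := QRE_Ar_ex hq₀
      obtain ⟨κ₀, hκ₀, hfirst⟩ := QRE_first hTRS hd hG0 hr8 (by linarith) hR8 (hBcl i) (q := q₀) (fun p hp => by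
        refine QRE_Ar_mono ?_ subset_rfl (QRE_Ar_comp (s := r₁) ?_ hq₀p
          ((hB i).2.2 p₀ (subset_closure hp₀) p hp))
        · rw [hr₁]; linarith
        · rw [hr₁]; linarith) hP₁o hp₁P
      refine ⟨𝒩, mem_nhdsWithin_of_mem_nhds (hNo.mem_nhds hxN), 𝒩, hNo, subset_rfl,
        ENNReal.ofReal c₂ * (κ₁ * κ₀), ?_, ?_⟩
      · exact mul_ne_zero (by simpa using hc₂) (mul_ne_zero hκ₁ hκ₀)
      · intro _ Z h hZ hh hhh
        set J : ENNReal := ∫⁻ Y in closedBall (0 : E3) 1 ∩ cone 𝒩, h Y with hJ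
        have s1 : κ₁ * κ₀ * arm (B i) Z ≤ (stp f (r / 8))^[N1 + 1] (arm Pn) Z := by
          rw [Function.iterate_succ_apply']
          calc κ₁ * κ₀ * arm (B i) Z = κ₁ * (κ₀ * arm (B i) Z) := by ring
            _ ≤ κ₁ * stp f (r / 8) (arm P₁) Z := mul_le_mul_right (hfirst Z hZ) _
            _ ≤ stp f (r / 8) (fun Z => κ₁ * arm P₁ Z) Z := QRE_iter_const κ₁ (arm P₁) 1 Z
            _ ≤ stp f (r / 8) ((stp f (r / 8))^[N1] (arm Pn)) Z := QRE_stp_mono hRAD hr8 hR8 hch1 hZ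
        calc ENNReal.ofReal c₂ * (κ₁ * κ₀) * arm (B i) Z * J
            = (ENNReal.ofReal c₂ * J) * (κ₁ * κ₀ * arm (B i) Z) := by ring
          _ ≤ (ENNReal.ofReal c₂ * J) * (stp f (r / 8))^[N1 + 1] (arm Pn) Z := mul_le_mul_right s1 _
          _ ≤ (stp f (r / 8))^[N1 + 1] (fun Z => (ENNReal.ofReal c₂ * J) * arm Pn Z) Z := QRE_iter_const _ _ _ _
          _ ≤ (stp f (r / 8))^[N1 + 1] (Occ (r / 64) h) Z := by
              refine QRE_iter_mono hRAD hr8 hR8 (fun Z' hZ' => ?_) _ Z hZ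
              refine le_trans (le_of_eq ?_) (hO Z' h hZ' hh hhh)
              rw [hJ]
              ring
  choose V hVo hKV κ hκ hmain using hone
  set κm : ENNReal := min 1 (Finset.univ.inf κ) with hκm
  have hκm0 : κm ≠ 0 := by
    have h1 : 0 < Finset.univ.inf κ :=
      (Finset.lt_inf_iff (by simp)).2 fun i _ => pos_iff_ne_zero.2 (hκ i)
    rw [hκm]
    exact (lt_min one_pos h1).ne'
  have hκmt : κm ≠ ⊤ := ne_top_of_le_ne_top ENNReal.one_ne_top (min_le_left _ _)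
  have hκmi : ∀ i, κm ≤ κ i := fun i => (min_le_right _ _).trans (Finset.inf_le (Finset.mem_univ i))
  refine ⟨N1 + 1, ⋂ i, V i, c * κm.toReal, C, isOpen_iInter_of_finite hVo, subset_iInter hKV, ?_, hC0, ?_⟩
  · exact mul_pos hc (ENNReal.toReal_pos hκm0 hκmt)
  · intro n Z h hZ hmass hh hhh
    obtain ⟨i, hch, hi⟩ := hS n Z hZ hmass
    have hZ' : Dsc (f.map '' closure U) Z :=
      ⟨hZ.1, fun z hz => QRE_cone_mono (image_mono subset_closure) (hZ.2 z hz)⟩
    have e1 : ENNReal.ofReal (c * κm.toReal * mass f n Z) ≤ κ i * arm (B i) Z := by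
      have h1 : c * κm.toReal * mass f n Z = κm.toReal * (c * mass f n Z) := by ring
      rw [h1, ENNReal.ofReal_mul ENNReal.toReal_nonneg, ENNReal.ofReal_toReal hκmt]
      exact mul_le_mul' (hκmi i) hi
    refine le_trans ?_ (hmain i hch Z h hZ' hh hhh)
    refine mul_le_mul' e1 ?_
    refine lintegral_mono_set ?_
    exact inter_subset_inter_right _ (QRE_cone_mono (iInter_subset _ i))

end Pool.Agent.P2
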