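import Pool.Agent.helper37.P2.SpecD

set_option autoImplicit false

/-!
Row p2:SEP (MP_063734_an): the small values of a bounded holomorphic function of the disc lie in few small discs.
-/

open scoped ContDiff Topology ComplexConjugate
open MeasureTheory Filter Set Metric

namespace Pool.Agent.P2

/-- logarithm of a zero free function on a disc -/
theorem SEP_log {g : ℂ → ℂ} {r : ℝ} (hr : 0 < r) (hg : DifferentiableOn ℂ g (ball 0 r))
    (hne : ∀ z ∈ ball (0:ℂ) r, g z ≠ 0) :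
    ∃ h : ℂ → ℂ, DifferentiableOn ℂ h (ball 0 r) ∧ ∀ z ∈ ball (0:ℂ) r, Complex.exp (h z) = g z := by
  have hgd : DifferentiableOn ℂ (deriv g) (ball 0 r) := hg.deriv isOpen_ball
  have hKd : DifferentiableOn ℂ (fun z => deriv g z / g z) (ball 0 r) := hgd.div hg hne
  obtain ⟨h, h0, hh⟩ := hKd.isExactOn_ball.with_val_at (0:ℂ) (Complex.log (g 0))
  have hz0 : (0:ℂ) ∈ ball (0:ℂ) r := mem_ball_self hr
  have hpc : IsPreconnected (ball (0:ℂ) r) := (convex_ball (0:ℂ) r).isPreconnected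
  refine ⟨h, fun z hz => (hh z hz).differentiableAt.differentiableWithinAt, ?_⟩
  intro w hw
  have hq : ∀ z ∈ ball (0:ℂ) r, HasDerivAt (fun z => g z * Complex.exp (-(h z))) 0 z := by
    intro z hz
    have h1 : HasDerivAt g (deriv g z) z :=
      ((hg z hz).differentiableAt (isOpen_ball.mem_nhds hz)).hasDerivAt
    have h2 := (hh z hz).fun_neg.cexp
    have h3 := h1.fun_mul h2
    have hgz := hne z hz
    have h4 : deriv g z * Complex.exp (-(h z)) +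
        g z * (Complex.exp (-(h z)) * -(deriv g z / g z)) = 0 := by
      field_simp
      ring
    rw [h4] at h3
    exact h3
  have h5 : g w * Complex.exp (-(h w)) = g 0 * Complex.exp (-(h 0)) := by
    apply isOpen_ball.is_const_of_deriv_eq_zero hpc
      (f := fun z => g z * Complex.exp (-(h z)))
      (fun z hz => (hq z hz).differentiableAt.differentiableWithinAt)
      (fun z hz => (hq z hz).deriv) hw hz0
  have h6 : g 0 * Complex.exp (-(h 0)) = 1 := by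
    rw [h0, Complex.exp_neg, Complex.exp_log (hne 0 hz0), mul_inv_cancel₀ (hne 0 hz0)]
  rw [h6, Complex.exp_neg] at h5
  have h7 := Complex.exp_ne_zero (h w)
  field_simp at h5
  exact h5.symm

/-- Harnack inequality for the real part of a holomorphic function. -/
theorem SEP_harnack {K : ℂ → ℂ} {s : ℝ} (hs : 0 < s) (hK : DifferentiableOn ℂ K (ball 0 s))
    (hpos : ∀ z ∈ ball (0:ℂ) s, 0 < (K z).re) {z : ℂ} (hz : z ∈ ball (0:ℂ) s) :
    (s - ‖z‖) * (K 0).re ≤ (s + ‖z‖) * (K z).re ∧ (s - ‖z‖) * (K z).re ≤ (s + ‖z‖) * (K 0).re := by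
  have h0 : (0:ℂ) ∈ ball (0:ℂ) s := mem_ball_self hs
  have ha := hpos 0 h0
  have hden : ∀ w ∈ ball (0:ℂ) s, K w + conj (K 0) ≠ 0 := by
    intro w hw h
    have := congrArg Complex.re h
    simp at this
    have h1 := hpos w hw
    linarith
  have hsq : ∀ w : ℂ, ‖K w - K 0‖ ^ 2 = ((K w).re - (K 0).re) ^ 2 + ((K w).im - (K 0).im) ^ 2 := by
    intro w
    rw [← Complex.normSq_eq_norm_sq, Complex.normSq_apply]
    simp
    ring
  have hsq2 : ∀ w : ℂ, ‖K w + conj (K 0)‖ ^ 2 = ((K w).re + (K 0).re) ^ 2 + ((K w).im - (K 0).im) ^ 2 := by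
    intro w
    rw [← Complex.normSq_eq_norm_sq, Complex.normSq_apply]
    simp
    ring
  let W : ℂ → ℂ := fun w => (K w - K 0) / (K w + conj (K 0))
  have hWd : DifferentiableOn ℂ W (ball 0 s) := by
    apply DifferentiableOn.div
    · exact hK.sub_const _
    · exact hK.add_const _
    · exact hden
  have hW0 : W 0 = 0 := by
    simp [W]
  have hWm : MapsTo W (ball 0 s) (closedBall (W 0) 1) := by
    intro w hw
    rw [hW0, mem_closedBall_zero_iff]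
    show ‖(K w - K 0) / (K w + conj (K 0))‖ ≤ 1
    rw [norm_div, div_le_one (norm_pos_iff.2 (hden w hw))]
    apply le_of_sq_le_sq _ (norm_nonneg _)
    rw [hsq, hsq2]
    have h1 := hpos w hw
    nlinarith [mul_pos h1 ha]
  have hS := Complex.dist_le_div_mul_dist_of_mapsTo_ball hWd hWm hz
  rw [hW0, dist_zero_right, dist_zero_right] at hS
  have hzs : ‖z‖ < s := by simpa using hz
  have hn0 := norm_nonneg z
  have h1 : ‖K z - K 0‖ * s ≤ ‖z‖ * ‖K z + conj (K 0)‖ := by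
    have h2 : ‖W z‖ = ‖K z - K 0‖ / ‖K z + conj (K 0)‖ := norm_div _ _
    rw [h2, div_le_iff₀ (norm_pos_iff.2 (hden z hz))] at hS
    calc ‖K z - K 0‖ * s ≤ (1 / s * ‖z‖ * ‖K z + conj (K 0)‖) * s := by gcongr
      _ = ‖z‖ * ‖K z + conj (K 0)‖ := by field_simp
  have h2 : ‖K z - K 0‖ ^ 2 * s ^ 2 ≤ ‖z‖ ^ 2 * ‖K z + conj (K 0)‖ ^ 2 := by
    rw [← mul_pow, ← mul_pow]
    gcongr
  rw [hsq, hsq2] at h2
  have hx := hpos z hz
  have h3 : (((K z).re - (K 0).re) * s) ^ 2 ≤ (‖z‖ * ((K z).re + (K 0).re)) ^ 2 := by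
    have h4 : 0 ≤ (s ^ 2 - ‖z‖ ^ 2) * ((K z).im - (K 0).im) ^ 2 := by
      apply mul_nonneg _ (sq_nonneg _)
      nlinarith
    nlinarith
  have h5 : |((K z).re - (K 0).re) * s| ≤ ‖z‖ * ((K z).re + (K 0).re) := by
    apply abs_le_of_sq_le_sq h3 (by positivity)
  rw [abs_le] at h5
  constructor
  · nlinarith [h5.1]
  · nlinarith [h5.2]

/-- lower bound for a function without zeros -/
theorem SEP_low {R r : ℝ} (hr : 0 < r) (hrR : r ≤ R) (h : ℂ → ℂ) (hd : DifferentiableOn ℂ h (ball 0 1))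
    (hb : ∀ ξ ∈ ball (0 : ℂ) 1, ‖h ξ‖ ≤ R) (hne : ∀ ξ ∈ ball (0 : ℂ) (3 / 4), h ξ ≠ 0)
    {ξ₀ : ℂ} (hξ₀ : ξ₀ ∈ closedBall (0 : ℂ) (1 / 2)) (hlow : r ≤ ‖h ξ₀‖) :
    ∀ ξ ∈ closedBall (0 : ℂ) (1 / 2), Real.exp (Real.log (2 * R) - 25 * (Real.log (2 * R) - Real.log r)) ≤ ‖h ξ‖ := by
  intro ξ hξ
  have hR : 0 < R := hr.trans_le hrR
  have hsub : ball (0 : ℂ) (3 / 4) ⊆ ball 0 1 := ball_subset_ball (by norm_num)
  have hsub2 : closedBall (0 : ℂ) (1 / 2) ⊆ ball 0 (3 / 4) := closedBall_subset_ball (by norm_num)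
  obtain ⟨k, hk, hke⟩ := SEP_log (by norm_num) (hd.mono hsub) hne
  have hre : ∀ w ∈ ball (0 : ℂ) (3 / 4), (k w).re = Real.log ‖h w‖ := by
    intro w hw
    rw [← hke w hw, Complex.norm_exp, Real.log_exp]
  let K : ℂ → ℂ := fun w => (Real.log (2 * R) : ℂ) - k w
  have hKd : DifferentiableOn ℂ K (ball 0 (3 / 4)) := hk.const_sub _
  have hKre : ∀ w ∈ ball (0 : ℂ) (3 / 4), (K w).re = Real.log (2 * R) - Real.log ‖h w‖ := by
    intro w hw
    rw [← hre w hw]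
    show ((Real.log (2 * R) : ℂ) - k w).re = _
    rw [Complex.sub_re, Complex.ofReal_re]
  have hpos : ∀ w ∈ ball (0 : ℂ) (3 / 4), 0 < (K w).re := by
    intro w hw
    rw [hKre w hw, sub_pos]
    apply Real.log_lt_log (norm_pos_iff.2 (hne w hw))
    have := hb w (hsub hw)
    linarith
  have e1 := (SEP_harnack (by norm_num) hKd hpos (hsub2 hξ₀)).1
  have e2 := (SEP_harnack (by norm_num) hKd hpos (hsub2 hξ)).2
  have p0 := hpos 0 (mem_ball_self (by norm_num))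
  have p1 := hpos ξ₀ (hsub2 hξ₀)
  have p2 := hpos ξ (hsub2 hξ)
  have n1 : ‖ξ₀‖ ≤ 1 / 2 := by simpa using hξ₀
  have n2 : ‖ξ‖ ≤ 1 / 2 := by simpa using hξ
  have f1 : (K 0).re ≤ 5 * (K ξ₀).re := by nlinarith
  have f2 : (K ξ).re ≤ 5 * (K 0).re := by nlinarith
  have f3 : (K ξ₀).re ≤ Real.log (2 * R) - Real.log r := by
    rw [hKre ξ₀ (hsub2 hξ₀)]
    have := Real.log_le_log hr hlow
    linarith
  have f4 := hKre ξ (hsub2 hξ)
  rw [← Real.exp_log (norm_pos_iff.2 (hne ξ (hsub2 hξ)))]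
  apply Real.exp_le_exp.2
  linarith

theorem SEP_mob (z w : ℂ) : ‖1 + conj z * w‖ ^ 2 - ‖w + z‖ ^ 2 = (1 - ‖z‖ ^ 2) * (1 - ‖w‖ ^ 2) := by
  rw [← Complex.normSq_eq_norm_sq, ← Complex.normSq_eq_norm_sq, ← Complex.normSq_eq_norm_sq,
    ← Complex.normSq_eq_norm_sq]
  simp only [Complex.normSq_apply]
  simp
  ring

theorem SEP_mob' (z w : ℂ) : ‖1 - conj z * w‖ ^ 2 - ‖w - z‖ ^ 2 = (1 - ‖z‖ ^ 2) * (1 - ‖w‖ ^ 2) := by
  have h := SEP_mob (-z) w
  rw [map_neg, neg_mul, ← sub_eq_add_neg, ← sub_eq_add_neg, norm_neg] at h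
  exact h

theorem SEP_den {z w : ℂ} (hz : ‖z‖ < 1) (hw : ‖w‖ < 1) : 1 + conj z * w ≠ 0 := by
  intro h
  have h1 : ‖conj z * w‖ = 1 := by
    have : conj z * w = -1 := by linear_combination h
    rw [this, norm_neg, norm_one]
  rw [norm_mul, RCLike.norm_conj] at h1
  nlinarith [norm_nonneg z, norm_nonneg w]

theorem SEP_den' {z w : ℂ} (hz : ‖z‖ < 1) (hw : ‖w‖ < 1) : 1 - conj z * w ≠ 0 := by
  have h := SEP_den (z := -z) (w := w) (by rwa [norm_neg]) hw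
  rw [map_neg, neg_mul, ← sub_eq_add_neg] at h
  exact h

/-- division by a Blaschke factor -/
theorem SEP_div {R : ℝ} (g : ℂ → ℂ) (hd : DifferentiableOn ℂ g (ball 0 1))
    (hb : ∀ ξ ∈ ball (0 : ℂ) 1, ‖g ξ‖ ≤ R) {z : ℂ} (hz : ‖z‖ < 1) (hgz : g z = 0) :
    ∃ h : ℂ → ℂ, DifferentiableOn ℂ h (ball 0 1) ∧ (∀ ξ ∈ ball (0 : ℂ) 1, ‖h ξ‖ ≤ R) ∧
      ∀ ξ ∈ ball (0 : ℂ) 1, g ξ = (ξ - z) / (1 - conj z * ξ) * h ξ := by
  let φ : ℂ → ℂ := fun w => (w + z) / (1 + conj z * w)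
  let ψ : ℂ → ℂ := fun ξ => (ξ - z) / (1 - conj z * ξ)
  have hφm : MapsTo φ (ball 0 1) (ball 0 1) := by
    intro w hw
    have hw' : ‖w‖ < 1 := by simpa using hw
    rw [mem_ball_zero_iff]
    show ‖(w + z) / (1 + conj z * w)‖ < 1
    rw [norm_div, div_lt_one (norm_pos_iff.2 (SEP_den hz hw'))]
    have h := SEP_mob z w
    have h1 : 0 < (1 - ‖z‖ ^ 2) * (1 - ‖w‖ ^ 2) := by
      apply mul_pos <;> nlinarith [norm_nonneg z, norm_nonneg w]
    apply lt_of_pow_lt_pow_left₀ 2 (norm_nonneg _)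
    linarith
  have hψm : MapsTo ψ (ball 0 1) (ball 0 1) := by
    intro w hw
    have hw' : ‖w‖ < 1 := by simpa using hw
    rw [mem_ball_zero_iff]
    show ‖(w - z) / (1 - conj z * w)‖ < 1
    rw [norm_div, div_lt_one (norm_pos_iff.2 (SEP_den' hz hw'))]
    have h := SEP_mob' z w
    have h1 : 0 < (1 - ‖z‖ ^ 2) * (1 - ‖w‖ ^ 2) := by
      apply mul_pos <;> nlinarith [norm_nonneg z, norm_nonneg w]
    apply lt_of_pow_lt_pow_left₀ 2 (norm_nonneg _)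
    linarith
  have hφd : DifferentiableOn ℂ φ (ball 0 1) := by
    apply DifferentiableOn.div
    · fun_prop
    · fun_prop
    · intro w hw
      exact SEP_den hz (by simpa using hw)
  have hψd : DifferentiableOn ℂ ψ (ball 0 1) := by
    apply DifferentiableOn.div
    · fun_prop
    · fun_prop
    · intro w hw
      exact SEP_den' hz (by simpa using hw)
  have hφψ : ∀ ξ ∈ ball (0 : ℂ) 1, φ (ψ ξ) = ξ := by
    intro ξ hξ
    have hξ' : ‖ξ‖ < 1 := by simpa using hξ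
    have h1 := SEP_den' hz hξ'
    have h2 := SEP_den hz (by simpa using hψm hξ : ‖ψ ξ‖ < 1)
    show (ψ ξ + z) / (1 + conj z * ψ ξ) = ξ
    rw [div_eq_iff h2]
    have h3 : ψ ξ * (1 - conj z * ξ) = ξ - z := div_mul_cancel₀ _ h1
    linear_combination h3
  let G : ℂ → ℂ := g ∘ φ
  have hGd : DifferentiableOn ℂ G (ball 0 1) := hd.comp hφd hφm
  have hG0 : G 0 = 0 := by
    show g ((0 + z) / (1 + conj z * 0)) = 0
    rw [zero_add, mul_zero, add_zero, div_one, hgz]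
  have hGm : MapsTo G (ball 0 1) (closedBall (G 0) R) := by
    intro w hw
    rw [hG0, mem_closedBall_zero_iff]
    exact hb _ (hφm hw)
  refine ⟨fun ξ => dslope G 0 (ψ ξ), ?_, ?_, ?_⟩
  · have h1 : DifferentiableOn ℂ (dslope G 0) (ball 0 1) :=
      (Complex.differentiableOn_dslope (isOpen_ball.mem_nhds (mem_ball_self one_pos))).2 hGd
    exact h1.comp hψd hψm
  · intro ξ hξ
    have h1 := Complex.norm_dslope_le_div_of_mapsTo_ball hGd hGm (hψm hξ)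
    rw [div_one] at h1
    exact h1
  · intro ξ hξ
    have h1 := sub_smul_dslope G 0 (ψ ξ)
    rw [hG0, sub_zero, sub_zero, smul_eq_mul] at h1
    have h2 : G (ψ ξ) = g ξ := by
      show g (φ (ψ ξ)) = g ξ
      rw [hφψ ξ hξ]
    rw [h2] at h1
    exact h1.symm

theorem SEP_ind {R r h0 : ℝ} (hh0 : 0 < h0)
    (hlow : ∀ h : ℂ → ℂ, DifferentiableOn ℂ h (ball 0 1) → (∀ ξ ∈ ball (0 : ℂ) 1, ‖h ξ‖ ≤ R) →
      (∀ ξ ∈ ball (0 : ℂ) (3 / 4), h ξ ≠ 0) → ∀ ξ₀ ∈ closedBall (0 : ℂ) (1 / 2), r ≤ ‖h ξ₀‖ →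
      ∀ ξ ∈ closedBall (0 : ℂ) (1 / 2), h0 ≤ ‖h ξ‖) (n : ℕ) :
    ∀ g : ℂ → ℂ, DifferentiableOn ℂ g (ball 0 1) → (∀ ξ ∈ ball (0 : ℂ) 1, ‖g ξ‖ ≤ R) →
      ∀ ξ₀ ∈ closedBall (0 : ℂ) (1 / 2), r ≤ ‖g ξ₀‖ → R * (10 / 11) ^ n < ‖g ξ₀‖ →
      ∃ z : Fin n → ℂ, ∀ ξ ∈ closedBall (0 : ℂ) (1 / 2), h0 * ∏ i, (‖ξ - z i‖ / 2) ≤ ‖g ξ‖ := by
  have hsub2 : closedBall (0 : ℂ) (1 / 2) ⊆ ball 0 1 := closedBall_subset_ball (by norm_num)
  induction n with
  | zero =>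
    intro g _ hb ξ₀ hξ₀ _ h
    have := hb ξ₀ (hsub2 hξ₀)
    rw [pow_zero, mul_one] at h
    linarith
  | succ n ih =>
    intro g hd hb ξ₀ hξ₀ hr h
    by_cases hz : ∃ z ∈ ball (0 : ℂ) (3 / 4), g z = 0
    · obtain ⟨z, hz, hgz⟩ := hz
      have hz34 : ‖z‖ < 3 / 4 := by simpa using hz
      have hz1 : ‖z‖ < 1 := by linarith
      obtain ⟨k, hkd, hkb, hk⟩ := SEP_div g hd hb hz1 hgz
      have hD : ∀ ξ ∈ closedBall (0 : ℂ) (1 / 2), 0 < ‖1 - conj z * ξ‖ ∧ ‖1 - conj z * ξ‖ ≤ 11 / 8 := by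
        intro ξ hξ
        have hξ' : ‖ξ‖ ≤ 1 / 2 := by simpa using hξ
        refine ⟨norm_pos_iff.2 (SEP_den' hz1 (by linarith)), ?_⟩
        have h1 := norm_sub_le (1 : ℂ) (conj z * ξ)
        rw [norm_one, norm_mul, RCLike.norm_conj] at h1
        nlinarith [norm_nonneg z, norm_nonneg ξ]
      have hgk : ∀ ξ ∈ closedBall (0 : ℂ) (1 / 2), ‖g ξ‖ = ‖ξ - z‖ / ‖1 - conj z * ξ‖ * ‖k ξ‖ := by
        intro ξ hξ
        rw [hk ξ (hsub2 hξ), norm_mul, norm_div]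
      have hcon : ‖ξ₀ - z‖ / ‖1 - conj z * ξ₀‖ ≤ 10 / 11 := by
        obtain ⟨d1, d2⟩ := hD ξ₀ hξ₀
        rw [div_le_iff₀ d1]
        have hξ' : ‖ξ₀‖ ≤ 1 / 2 := by simpa using hξ₀
        have h1 := SEP_mob' z ξ₀
        have h2 : (7 / 16) * (3 / 4) ≤ (1 - ‖z‖ ^ 2) * (1 - ‖ξ₀‖ ^ 2) := by
          apply mul_le_mul _ _ (by norm_num) _
          · nlinarith [norm_nonneg z]
          · nlinarith [norm_nonneg ξ₀]
          · nlinarith [norm_nonneg z]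
        apply le_of_sq_le_sq _ (by positivity)
        rw [mul_pow]
        nlinarith
      have hkk : (11 / 10) * ‖g ξ₀‖ ≤ ‖k ξ₀‖ := by
        rw [hgk ξ₀ hξ₀]
        nlinarith [norm_nonneg (k ξ₀)]
      obtain ⟨z', hz'⟩ := ih k hkd hkb ξ₀ hξ₀ (by linarith [norm_nonneg (g ξ₀)]) (by
        rw [pow_succ] at h
        nlinarith)
      refine ⟨Fin.cons z z', ?_⟩
      intro ξ hξ
      rw [Fin.prod_univ_succ]
      simp only [Fin.cons_zero, Fin.cons_succ]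
      rw [hgk ξ hξ]
      obtain ⟨d1, d2⟩ := hD ξ hξ
      have h1 : ‖ξ - z‖ / 2 ≤ ‖ξ - z‖ / ‖1 - conj z * ξ‖ := by
        gcongr
        linarith
      calc h0 * (‖ξ - z‖ / 2 * ∏ i, (‖ξ - z' i‖ / 2)) = ‖ξ - z‖ / 2 * (h0 * ∏ i, (‖ξ - z' i‖ / 2)) := by ring
        _ ≤ ‖ξ - z‖ / ‖1 - conj z * ξ‖ * ‖k ξ‖ := by
          apply mul_le_mul h1 (hz' ξ hξ) _ (by positivity)
          apply mul_nonneg hh0.le
          exact Finset.prod_nonneg (fun i _ => by positivity)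
    · have hne : ∀ ξ ∈ ball (0 : ℂ) (3 / 4), g ξ ≠ 0 := fun ξ hξ h => hz ⟨ξ, hξ, h⟩
      refine ⟨fun _ => 0, ?_⟩
      intro ξ hξ
      have h1 := hlow g hd hb hne ξ₀ hξ₀ hr ξ hξ
      have hξ' : ‖ξ‖ ≤ 1 / 2 := by simpa using hξ
      have h2 : ∏ _i : Fin (n + 1), (‖ξ - 0‖ / 2) ≤ 1 := by
        apply Finset.prod_le_one
        · intro i _
          positivity
        · intro i _
          rw [sub_zero]
          linarith
      nlinarith

theorem SEP : SEP_stmt := by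
  intro R r hr hrR
  have hR : 0 < R := hr.trans_le hrR
  obtain ⟨n, hn⟩ := exists_pow_lt_of_lt_one (show 0 < r / R by positivity) (show (10 / 11 : ℝ) < 1 by norm_num)
  rw [lt_div_iff₀ hR] at hn
  refine ⟨n, ?_⟩
  intro ρ hρ
  set h0 : ℝ := Real.exp (Real.log (2 * R) - 25 * (Real.log (2 * R) - Real.log r)) with hh0
  have hh0p : 0 < h0 := Real.exp_pos _
  refine ⟨h0 * (ρ / 2) ^ n, by positivity, ?_⟩
  intro g hd hb hex
  obtain ⟨ξ₀, hξ₀, hr0⟩ := hex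
  obtain ⟨z, hz⟩ := SEP_ind hh0p (fun h h1 h2 h3 ξ₀ h4 h5 => SEP_low hr hrR h h1 h2 h3 h4 h5) n g hd hb ξ₀ hξ₀ hr0 (by linarith)
  refine ⟨z, ?_⟩
  intro ξ hξ hlt
  by_contra hcon
  push Not at hcon
  have h1 := hz ξ hξ
  have h2 : (ρ / 2) ^ n ≤ ∏ i, (‖ξ - z i‖ / 2) := by
    have : (ρ / 2) ^ n = ∏ _i : Fin n, (ρ / 2) := by
      rw [Finset.prod_const, Finset.card_univ, Fintype.card_fin]
    rw [this]
    apply Finset.prod_le_prod
    · intro i _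
      positivity
    · intro i _
      have := hcon i
      linarith
  nlinarith

end Pool.Agent.P2
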