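import Pool.Agent.helper37.P2.SpecA

set_option autoImplicit false

/-!
Row UNH of project P2 (MP_063734_an): uniform Hoelder continuity of the potentials of a lift on the cone of a good trapping region.
-/

open scoped ContDiff Topology
open MeasureTheory Filter Set Metric MvPolynomial Pool.Agent.helper37.QA

namespace Pool.Agent.P2

theorem UNH_contDiff {m : ℕ} (G : Fin m → MvPolynomial (Fin m) ℂ) : ContDiff ℝ 1 (pmap G) := by
  rw [contDiff_pi]
  intro i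
  have h : (fun x : Fin m → ℂ => pmap G x i) =
      fun x => ∑ s ∈ (G i).support, (G i).coeff s * ∏ j, x j ^ s j := by
    funext x
    exact eval_eq' x (G i)
  rw [h]
  refine ContDiff.sum fun s _ => ?_
  refine contDiff_const.mul ?_
  refine contDiff_prod fun j _ => ?_
  exact (contDiff_apply ℝ ℂ j).pow _

theorem UNH_lip {d : ℕ} (f : Endo 2 d) : ∃ L : ℝ, 0 < L ∧ ∀ W W' : E3, W ≠ 0 →
    ‖W - W'‖ ≤ (1 / 2) * ‖W‖ →
    ‖pmap f.F W - pmap f.F W'‖ ≤ L * (‖W - W'‖ / ‖W‖) * ‖pmap f.F W‖ := by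
  obtain ⟨c, C, hc, hC, hb⟩ := pmap_bounds f.hom f.nondeg
  obtain ⟨K, hK⟩ := ((UNH_contDiff f.F).contDiffOn (s := closedBall (0 : E3) (3 / 2))).exists_lipschitzOnWith
    (by norm_num) (convex_closedBall _ _) (isCompact_closedBall _ _)
  refine ⟨((K : ℝ) + 1) / c, by positivity, fun W W' hW hd => ?_⟩
  have hWp : 0 < ‖W‖ := norm_pos_iff.2 hW
  have hWn : ‖W‖ ≠ 0 := hWp.ne'
  set w : E3 := ((‖W‖ : ℂ)⁻¹) • W with hw
  set w' : E3 := ((‖W‖ : ℂ)⁻¹) • W' with hw'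
  have hWc : (‖W‖ : ℂ) ≠ 0 := by exact_mod_cast hWn
  have hWw : W = (‖W‖ : ℂ) • w := by rw [hw, smul_smul, mul_inv_cancel₀ hWc, one_smul]
  have hWw' : W' = (‖W‖ : ℂ) • w' := by rw [hw', smul_smul, mul_inv_cancel₀ hWc, one_smul]
  have hnn : ‖((‖W‖ : ℂ)⁻¹)‖ = ‖W‖⁻¹ := by simp
  have h1 : ‖w‖ = 1 := by rw [hw, norm_smul, hnn, inv_mul_cancel₀ hWn]
  have h2 : ‖w - w'‖ = ‖W - W'‖ / ‖W‖ := by
    rw [hw, hw', ← smul_sub, norm_smul, hnn]
    field_simp
  have h3 : ‖w - w'‖ ≤ 1 / 2 := by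
    rw [h2, div_le_iff₀ hWp]
    exact hd
  have h4 : ‖w'‖ ≤ 3 / 2 := by
    have h5 : ‖w'‖ ≤ ‖w‖ + ‖w - w'‖ := by
      have := norm_sub_norm_le w' w
      rw [norm_sub_rev] at this
      linarith
    linarith
  have h6 : ‖pmap f.F w - pmap f.F w'‖ ≤ K * ‖w - w'‖ := by
    have := hK.dist_le_mul w (by rw [mem_closedBall_zero_iff]; linarith) w'
      (by rw [mem_closedBall_zero_iff]; exact h4)
    rwa [dist_eq_norm, dist_eq_norm] at this
  have q1 : pmap f.F W = ((‖W‖ : ℂ) ^ d) • pmap f.F w := by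
    conv_lhs => rw [hWw]
    exact pmap_smul f.hom _ w
  have q2 : pmap f.F W' = ((‖W‖ : ℂ) ^ d) • pmap f.F w' := by
    conv_lhs => rw [hWw']
    exact pmap_smul f.hom _ w'
  have h7 : pmap f.F W - pmap f.F W' = ((‖W‖ : ℂ) ^ d) • (pmap f.F w - pmap f.F w') := by
    rw [q1, q2, smul_sub]
  have h8 : ‖pmap f.F W - pmap f.F W'‖ = ‖W‖ ^ d * ‖pmap f.F w - pmap f.F w'‖ := by
    rw [h7, norm_smul, norm_pow]
    simp
  have h9 := (hb W hW).1
  rw [h8]
  have h10 : 0 ≤ ‖W - W'‖ / ‖W‖ := by positivity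
  calc ‖W‖ ^ d * ‖pmap f.F w - pmap f.F w'‖ ≤ ‖W‖ ^ d * (((K : ℝ) + 1) * (‖W - W'‖ / ‖W‖)) := by
        refine mul_le_mul_of_nonneg_left ?_ (by positivity)
        rw [← h2] at h10 ⊢
        nlinarith
    _ = ((K : ℝ) + 1) / c * (‖W - W'‖ / ‖W‖) * (c * ‖W‖ ^ d) := by
        field_simp
    _ ≤ ((K : ℝ) + 1) / c * (‖W - W'‖ / ‖W‖) * ‖pmap f.F W‖ := by
        refine mul_le_mul_of_nonneg_left h9 ?_
        positivity

theorem UNH_log {x y m : ℝ} (hm : 0 < m) (hx : m ≤ x) (hy : m ≤ y) :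
    |Real.log x - Real.log y| ≤ |x - y| / m := by
  have hx0 : 0 < x := hm.trans_le hx
  have hy0 : 0 < y := hm.trans_le hy
  have key : ∀ a b : ℝ, m ≤ a → m ≤ b → Real.log a - Real.log b ≤ |a - b| / m := by
    intro a b ha hb
    have ha0 : 0 < a := hm.trans_le ha
    have hb0 : 0 < b := hm.trans_le hb
    rw [← Real.log_div ha0.ne' hb0.ne']
    have h1 : Real.log (a / b) ≤ a / b - 1 := Real.log_le_sub_one_of_pos (by positivity)
    have h2 : a / b - 1 = (a - b) / b := by field_simp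
    rw [h2] at h1
    refine h1.trans ?_
    calc (a - b) / b ≤ |a - b| / b := by
          exact div_le_div_of_nonneg_right (le_abs_self _) hb0.le
      _ ≤ |a - b| / m := div_le_div_of_nonneg_left (abs_nonneg _) hm hb
  rw [abs_le]
  constructor
  · have := key y x hy hx
    rw [abs_sub_comm] at this
    linarith
  · exact key x y hx hy

theorem UNH_nq {Z : E3} : ‖Z‖ ^ 2 ≤ nq Z := by
  obtain ⟨i, hi⟩ := exists_norm_eq Z
  rw [← hi, nq, ← Complex.normSq_eq_norm_sq]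
  exact Finset.single_le_sum (f := fun i => Complex.normSq (Z i)) (fun j _ => Complex.normSq_nonneg (Z j))
    (Finset.mem_univ i)

theorem UNH_pq_sub {W W' : E3} (h : ‖W - W'‖ ≤ (1 / 2) * ‖W‖) :
    |pq W - pq W'| ≤ 5 * ‖W - W'‖ * ‖W‖ := by
  have h1 : ‖W'‖ ≤ (3 / 2) * ‖W‖ := by
    have := norm_sub_norm_le W' W
    rw [norm_sub_rev] at this
    linarith
  have key : ∀ i : Fin 3, |Complex.normSq (W i) - Complex.normSq (W' i)| ≤ ‖W - W'‖ * ((5 / 2) * ‖W‖) := by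
    intro i
    rw [Complex.normSq_eq_norm_sq, Complex.normSq_eq_norm_sq]
    have e1 : ‖W i‖ ^ 2 - ‖W' i‖ ^ 2 = (‖W i‖ - ‖W' i‖) * (‖W i‖ + ‖W' i‖) := by ring
    rw [e1, abs_mul]
    have e2 : |‖W i‖ - ‖W' i‖| ≤ ‖W - W'‖ :=
      (abs_norm_sub_norm_le _ _).trans (norm_le_pi_norm (W - W') i)
    have e3 : |‖W i‖ + ‖W' i‖| ≤ (5 / 2) * ‖W‖ := by
      rw [abs_of_nonneg (by positivity)]
      have := norm_le_pi_norm W i
      have := norm_le_pi_norm W' i
      linarith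
    exact mul_le_mul e2 e3 (abs_nonneg _) (norm_nonneg _)
  have k0 := key 0
  have k1 := key 1
  have e : pq W - pq W' = (Complex.normSq (W 0) - Complex.normSq (W' 0)) +
      (Complex.normSq (W 1) - Complex.normSq (W' 1)) := by
    unfold pq
    ring
  rw [e]
  refine (abs_add_le _ _).trans ?_
  linarith

theorem UNH_cone {d : ℕ} {f : Endo 2 d} {U : Set (PP 2)} (hU : IsTrapping f U) {Z : E3}
    (hZ : Z ∈ cone U) (n : ℕ) : It f n Z ∈ cone U := by
  obtain ⟨h, hZU⟩ := hZ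
  refine ⟨pmap_ne (iter_nd f.nondeg n) h, ?_⟩
  have := iterate_mem hU hZU n
  rwa [map_iter f n h] at this

theorem UNH_un_add {d : ℕ} (f : Endo 2 d) (m k : ℕ) (Z : E3) :
    un f (m + k) Z = un f m (It f k Z) / (d : ℝ) ^ k := by
  unfold un It
  rw [pmap_iter_add, pow_add, div_div]

theorem UNH_It_succ {d : ℕ} (f : Endo 2 d) (n : ℕ) (Z : E3) :
    It f (n + 1) Z = pmap f.F (It f n Z) := pmap_iter_succ f.F n Z

theorem UNH_It_zero {d : ℕ} (f : Endo 2 d) (Z : E3) : It f 0 Z = Z := pmap_iter_zero f.F Z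

theorem UNH (hUN1 : UN1_stmt) : UNH_stmt := by
  intro d f U hd hG
  obtain ⟨C, hC, ha, hb, hc, -⟩ := hUN1 d f U hd hG
  obtain ⟨L0, hL0, hlip0⟩ := UNH_lip f
  have hdR : (2 : ℝ) ≤ d := by exact_mod_cast hd
  have hd0 : (0 : ℝ) < d := by linarith
  -- the constant L
  set L : ℝ := max L0 d with hLdef
  have hLd : (d : ℝ) ≤ L := le_max_right _ _
  have hL2 : 2 ≤ L := hdR.trans hLd
  have hLpos : 0 < L := by linarith
  have hlip : ∀ W W' : E3, W ≠ 0 → ‖W - W'‖ ≤ (1 / 2) * ‖W‖ →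
      ‖pmap f.F W - pmap f.F W'‖ ≤ L * (‖W - W'‖ / ‖W‖) * ‖pmap f.F W‖ := by
    intro W W' hW h
    refine (hlip0 W W' hW h).trans ?_
    have : L0 ≤ L := le_max_left _ _
    gcongr
  have hsub : cone U ⊆ cone (closure U) := fun x hx => ⟨hx.1, subset_closure hx.2⟩
  -- the function u_0
  have hu0 : ∀ W ∈ cone U, ∀ W' ∈ cone U, ‖W - W'‖ ≤ (1 / 2) * ‖W‖ →
      |un f 0 W - un f 0 W'| ≤ 10 * C * (‖W - W'‖ / ‖W‖) := by
    intro W hW W' hW' h
    have hWp : 0 < ‖W‖ := norm_pos_iff.2 hW.1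
    have c1 := (hc 0 W (hsub hW)).2
    have c2 := (hc 0 W' (hsub hW')).2
    rw [UNH_It_zero] at c1 c2
    have n1 : ‖W‖ ^ 2 ≤ nq W := UNH_nq
    have n2 : ‖W'‖ ^ 2 ≤ nq W' := UNH_nq
    have n3 : (1 / 2) * ‖W‖ ≤ ‖W'‖ := by
      have := norm_sub_norm_le W W'
      linarith
    have n4 : ‖W‖ ^ 2 / 4 ≤ ‖W'‖ ^ 2 := by nlinarith
    have m1 : ‖W‖ ^ 2 / (4 * C) ≤ pq W := by
      rw [div_le_iff₀ (by positivity)]
      nlinarith [sq_nonneg ‖W‖]
    have m2 : ‖W‖ ^ 2 / (4 * C) ≤ pq W' := by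
      rw [div_le_iff₀ (by positivity)]
      nlinarith [sq_nonneg ‖W‖]
    have hl := UNH_log (by positivity) m1 m2
    have e : un f 0 W - un f 0 W' = (1 / 2) * (Real.log (pq W) - Real.log (pq W')) := by
      unfold un
      rw [UNH_It_zero, UNH_It_zero, pow_zero]
      ring
    rw [e, abs_mul, abs_of_pos (by norm_num : (0 : ℝ) < 1 / 2)]
    have h5 := UNH_pq_sub h
    calc 1 / 2 * |Real.log (pq W) - Real.log (pq W')| ≤ 1 / 2 * (|pq W - pq W'| / (‖W‖ ^ 2 / (4 * C))) := by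
          linarith
      _ ≤ 1 / 2 * (5 * ‖W - W'‖ * ‖W‖ / (‖W‖ ^ 2 / (4 * C))) := by
          gcongr
      _ = 10 * C * (‖W - W'‖ / ‖W‖) := by
          field_simp
          ring
  -- the exponent
  have hlogL : 0 < Real.log L := Real.log_pos (by linarith)
  have hlogd : 0 < Real.log d := Real.log_pos (by linarith)
  set α : ℝ := Real.log d / Real.log L with hα
  have hα0 : 0 < α := div_pos hlogd hlogL
  have hα1 : α ≤ 1 := (div_le_one hlogL).2 (Real.log_le_log hd0 hLd)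
  have hLα : L ^ α = d := by
    rw [Real.rpow_def_of_pos hLpos, hα, mul_div_cancel₀ _ hlogL.ne', Real.exp_log hd0]
  have hdn : ∀ n : ℕ, (d : ℝ) ^ n = (L ^ n) ^ α := by
    intro n
    rw [← hLα, ← Real.rpow_natCast, ← Real.rpow_natCast, ← Real.rpow_mul hLpos.le, ← Real.rpow_mul hLpos.le,
      mul_comm]
  refine ⟨10 * C + (2 * C + 10 * C) * (2 * L) ^ α, α, by positivity, hα0, hα1, ?_⟩
  intro n Z hZ Z' hZ' hZZ
  have hZp : 0 < ‖Z‖ := norm_pos_iff.2 hZ.1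
  set ε : ℝ := ‖Z - Z'‖ / ‖Z‖ with hε
  have hε0 : 0 ≤ ε := by positivity
  have hε2 : ε ≤ 1 / 2 := by
    rw [hε, div_le_iff₀ hZp]
    exact hZZ
  rcases hε0.eq_or_lt with h0 | hεpos
  · have h1 : ‖Z - Z'‖ = 0 := by
      have : ‖Z - Z'‖ / ‖Z‖ = 0 := by rw [← hε]; exact h0.symm
      rcases div_eq_zero_iff.1 this with h | h
      · exact h
      · exact absurd h hZp.ne'
    have h2 : Z = Z' := sub_eq_zero.1 (norm_eq_zero.1 h1)
    rw [h2, sub_self, abs_zero]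
    positivity
  -- the largest k
  have hex : ∃ j : ℕ, 1 / 2 < L ^ j * ε := by
    obtain ⟨j, hj⟩ := pow_unbounded_of_one_lt (1 / (2 * ε)) (by linarith : (1 : ℝ) < L)
    refine ⟨j, ?_⟩
    rw [div_lt_iff₀ (by positivity)] at hj
    nlinarith
  obtain ⟨k, hk1, hk2⟩ : ∃ k : ℕ, L ^ k * ε ≤ 1 / 2 ∧ 1 / 2 < L ^ (k + 1) * ε := by
    classical
    have h1 := Nat.find_spec hex
    have h2 : Nat.find hex ≠ 0 := by
      intro h0
      rw [h0, pow_zero, one_mul] at h1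
      linarith
    obtain ⟨k, hk⟩ := Nat.exists_eq_succ_of_ne_zero h2
    refine ⟨k, ?_, ?_⟩
    · exact not_lt.1 (Nat.find_min hex (by omega : k < Nat.find hex))
    · rw [hk] at h1
      exact h1
  have hLk : ∀ j ≤ k, L ^ j * ε ≤ 1 / 2 := by
    intro j hj
    refine le_trans ?_ hk1
    have : L ^ j ≤ L ^ k := pow_le_pow_right₀ (by linarith) hj
    gcongr
  have hZc : ∀ j, It f j Z ∈ cone U := UNH_cone hG.1 hZ
  have hZc' : ∀ j, It f j Z' ∈ cone U := UNH_cone hG.1 hZ'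
  have hstep : ∀ j ≤ k, ‖It f j Z - It f j Z'‖ ≤ L ^ j * ε * ‖It f j Z‖ := by
    intro j
    induction j with
    | zero =>
      intro _
      rw [UNH_It_zero, UNH_It_zero, pow_zero, one_mul, hε, div_mul_cancel₀ _ hZp.ne']
    | succ j ih =>
      intro hj
      have ih1 := ih (by omega)
      have hne : It f j Z ≠ 0 := (hZc j).1
      have hnp : 0 < ‖It f j Z‖ := norm_pos_iff.2 hne
      have h1 : ‖It f j Z - It f j Z'‖ ≤ (1 / 2) * ‖It f j Z‖ := by
        refine ih1.trans ?_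
        have := hLk j (by omega)
        gcongr
      have h2 := hlip _ _ hne h1
      rw [UNH_It_succ, UNH_It_succ]
      refine h2.trans ?_
      have h3 : ‖It f j Z - It f j Z'‖ / ‖It f j Z‖ ≤ L ^ j * ε := by
        rw [div_le_iff₀ hnp]
        exact ih1
      calc L * (‖It f j Z - It f j Z'‖ / ‖It f j Z‖) * ‖pmap f.F (It f j Z)‖
          ≤ L * (L ^ j * ε) * ‖pmap f.F (It f j Z)‖ := by gcongr
        _ = L ^ (j + 1) * ε * ‖pmap f.F (It f j Z)‖ := by ring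
  have hu : ∀ j ≤ k, |un f 0 (It f j Z) - un f 0 (It f j Z')| ≤ 10 * C * (L ^ j * ε) := by
    intro j hj
    have h0 := hstep j hj
    have hnp : 0 < ‖It f j Z‖ := norm_pos_iff.2 (hZc j).1
    have h1 : ‖It f j Z - It f j Z'‖ ≤ (1 / 2) * ‖It f j Z‖ := by
      refine h0.trans ?_
      have := hLk j hj
      gcongr
    refine (hu0 _ (hZc j) _ (hZc' j) h1).trans ?_
    have h3 : ‖It f j Z - It f j Z'‖ / ‖It f j Z‖ ≤ L ^ j * ε := by
      rw [div_le_iff₀ hnp]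
      exact h0
    gcongr
  have hεα : 0 < ε ^ α := Real.rpow_pos_of_pos hεpos α
  rcases le_or_gt n k with hnk | hnk
  · -- case n ≤ k
    have e1 := UNH_un_add f 0 n Z
    have e2 := UNH_un_add f 0 n Z'
    rw [zero_add] at e1 e2
    have hdnp : (0 : ℝ) < (d : ℝ) ^ n := by positivity
    rw [e1, e2, ← sub_div, abs_div, abs_of_pos hdnp]
    have h1 := hu n hnk
    have hLn : (0 : ℝ) < L ^ n := by positivity
    have h2 : L ^ n * ε / (d : ℝ) ^ n ≤ ε ^ α := by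
      rw [hdn n, div_le_iff₀ (by positivity), ← Real.mul_rpow hε0 hLn.le]
      have h3 : L ^ n * ε ≤ 1 := (hLk n hnk).trans (by norm_num)
      have h4 : 0 < L ^ n * ε := by positivity
      rw [mul_comm ε]
      calc L ^ n * ε = (L ^ n * ε) ^ (1 : ℝ) := (Real.rpow_one _).symm
        _ ≤ (L ^ n * ε) ^ α := Real.rpow_le_rpow_of_exponent_ge h4 h3 hα1
    calc |un f 0 (It f n Z) - un f 0 (It f n Z')| / (d : ℝ) ^ n
        ≤ 10 * C * (L ^ n * ε) / (d : ℝ) ^ n := by gcongr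
      _ = 10 * C * (L ^ n * ε / (d : ℝ) ^ n) := by ring
      _ ≤ 10 * C * ε ^ α := by gcongr
      _ ≤ (10 * C + (2 * C + 10 * C) * (2 * L) ^ α) * ε ^ α := by
          have : 0 ≤ (2 * C + 10 * C) * (2 * L) ^ α := by positivity
          gcongr
          linarith
  · -- case n > k
    obtain ⟨m, rfl⟩ : ∃ m, n = m + k := ⟨n - k, by omega⟩
    rw [UNH_un_add, UNH_un_add, ← sub_div]
    have hdkp : (0 : ℝ) < (d : ℝ) ^ k := by positivity
    rw [abs_div, abs_of_pos hdkp]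
    have a1 := ha 0 m (Nat.zero_le _) _ (hsub (hZc k))
    have a2 := ha 0 m (Nat.zero_le _) _ (hsub (hZc' k))
    rw [pow_zero, div_one] at a1 a2
    have a3 := hu k le_rfl
    have a4 : 10 * C * (L ^ k * ε) ≤ 10 * C := by
      have := hLk k le_rfl
      nlinarith
    have h1 : |un f m (It f k Z) - un f m (It f k Z')| ≤ 2 * C + 10 * C := by
      rw [abs_le] at a1 a2 a3 ⊢
      constructor <;> linarith [a1.1, a1.2, a2.1, a2.2, a3.1, a3.2]
    have h2 : 1 ≤ (2 * L) ^ α * ε ^ α * (d : ℝ) ^ k := by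
      rw [hdn k, ← Real.mul_rpow (by positivity) hε0, ← Real.mul_rpow (by positivity) (by positivity)]
      refine Real.one_le_rpow ?_ hα0.le
      have : L ^ (k + 1) * ε = L * ε * L ^ k := by ring
      nlinarith
    rw [div_le_iff₀ hdkp]
    calc |un f m (It f k Z) - un f m (It f k Z')| ≤ 2 * C + 10 * C := h1
      _ ≤ (2 * C + 10 * C) * ((2 * L) ^ α * ε ^ α * (d : ℝ) ^ k) := by
          have : 0 < 2 * C + 10 * C := by positivity
          nlinarith
      _ = (2 * C + 10 * C) * (2 * L) ^ α * ε ^ α * (d : ℝ) ^ k := by ring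
      _ ≤ (10 * C + (2 * C + 10 * C) * (2 * L) ^ α) * ε ^ α * (d : ℝ) ^ k := by
          gcongr
          linarith

end Pool.Agent.P2
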