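import Pool.Agent.helper56.P2.SpecW

set_option autoImplicit false
set_option linter.unusedVariables false

/-!
Row p2:WP0 (MP_063734_an): the second Manye trick.
-/

open scoped ContDiff Topology ComplexConjugate ENNReal
open MeasureTheory Filter Set Metric MvPolynomial Pool.Agent.helper37.QA

namespace Pool.Agent.P2W

open Pool.Agent.P2

/-- The measure theory of the row. -/
theorem WP0_abs (hUR3 : P2U.UR3_stmt) (K0 : ℝ) (hK0 : 1 ≤ K0) : ∃ CU : ℝ, 0 < CU ∧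
    ∀ (T : Set (ℂ × ℂ)) (CX CV : ℂ × ℂ → ℂ) (OM X Y E : ℂ × ℂ → ℝ) (g2 g3 g4 : ℂ × ℂ → ℝ≥0∞) (h ε dd D : ℝ) (m : ℕ),
    IsOpen T → ContinuousOn CX T → ContinuousOn CV T → ContinuousOn OM T → ContinuousOn X T → ContinuousOn Y T →
    ContinuousOn E T →
    (∀ p ∈ T, 0 ≤ OM p) → (∀ p ∈ T, 0 ≤ X p) → (∀ p ∈ T, 0 ≤ Y p) → (∀ p ∈ T, 0 ≤ E p) →
    (∀ p ∈ T, X p * Real.sqrt (‖CX p‖ ^ 2 + ‖CV p‖ ^ 2) ≤ E p + ‖CX p‖ * (X p + Y p)) →
    0 < h → h ≤ 1 / 4 → 0 < ε → 2 ≤ dd → h⁻¹ ^ 5 ≤ dd ^ m → dd ^ m ≤ h⁻¹ ^ 6 → 1 ≤ m → 0 < D →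
    (∀ p ∈ T, X p ^ 2 ≤ h * dd ^ m → 1 ≤ g2 p) →
    (∀ p ∈ T, h * dd ^ m < X p ^ 2 → ε * m ≤ Real.log ((X p + Y p + 1) ^ 2 / X p ^ 2) → 1 ≤ g3 p) →
    (∀ p ∈ T, CX p ≠ 0 → ENNReal.ofReal (E p ^ 2 / ‖CX p‖ ^ 2) ≤ g4 p) →
    ∫⁻ p in T, ENNReal.ofReal (‖CX p‖ ^ 2 * OM p) * 1 ≤ ENNReal.ofReal (D * h ^ 2 * K0) →
    ∫⁻ p in T, ENNReal.ofReal (‖CX p‖ ^ 2 * OM p) * g2 p ≤ ENNReal.ofReal (D * h ^ 2 * (K0 / Real.log (1 / h))) →
    ∫⁻ p in T, ENNReal.ofReal (‖CX p‖ ^ 2 * OM p) * g2 p ≤ ENNReal.ofReal (D * h ^ 2 * (ε / 2)) →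
    ∫⁻ p in T, ENNReal.ofReal (‖CX p‖ ^ 2 * OM p) * g3 p ≤ ENNReal.ofReal (D * h ^ 2 * (ε / 2)) →
    ∫⁻ p in T, ENNReal.ofReal (‖CX p‖ ^ 2 * OM p) * g4 p ≤ ENNReal.ofReal (D * h ^ 2 * (K0 / h ^ 2)) →
    ∫⁻ p in T, ENNReal.ofReal (Real.log ((‖CX p‖ ^ 2 + ‖CV p‖ ^ 2) / (‖CX p‖ ^ 2 + (h ^ 2) ^ 2 * ‖CV p‖ ^ 2)) *
        ‖CX p‖ ^ 2 * OM p) ≤
      ENNReal.ofReal (D * h ^ 2 * (CU * (ε * Real.log (1 / h) + 1))) := by
  obtain ⟨CU, hCU0, hCU⟩ := hUR3 K0 hK0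
  refine ⟨CU, hCU0, ?_⟩
  intro T CX CV OM X Y E g2 g3 g4 h ε dd D m hT cCX cCV cOM cX cY cE pOM pX pY pE hineq h0 h4 hε hdd hm5 hm6 hm1 hD
    hg2 hg3 hg4 b0 b2 b2' b3 b4
  classical
  let T1 : Set (ℂ × ℂ) := T ∩ CX ⁻¹' {0}ᶜ
  have hT1 : IsOpen T1 := cCX.isOpen_inter_preimage hT isOpen_compl_singleton
  have hT1m : MeasurableSet T1 := hT1.measurableSet
  have hsub : T1 ⊆ T := inter_subset_left
  have hne : ∀ p ∈ T1, CX p ≠ 0 := fun p hp => hp.2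
  have hDh : 0 < D * h ^ 2 := by positivity
  let w : ℂ × ℂ → ℝ≥0∞ := T1.piecewise (fun p => ENNReal.ofReal ((D * h ^ 2)⁻¹ * (‖CX p‖ ^ 2 * OM p))) (fun _ => 0)
  have cCX1 := cCX.mono hsub
  have cCV1 := cCV.mono hsub
  have cOM1 := cOM.mono hsub
  have cX1 := cX.mono hsub
  have cY1 := cY.mono hsub
  have cE1 := cE.mono hsub
  have hw : Measurable w := by
    apply ContinuousOn.measurable_piecewise _ continuousOn_const hT1m
    apply ENNReal.continuous_ofReal.comp_continuousOn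
    exact continuousOn_const.mul ((cCX1.norm.pow 2).mul cOM1)
  have hw1 : ∀ p ∈ T1, w p = ENNReal.ofReal (D * h ^ 2)⁻¹ * ENNReal.ofReal (‖CX p‖ ^ 2 * OM p) := by
    intro p hp
    show T1.piecewise _ _ p = _
    rw [Set.piecewise_eq_of_mem _ _ _ hp, ENNReal.ofReal_mul (by positivity)]
  have hw0 : ∀ p, p ∉ T1 → w p = 0 := by
    intro p hp
    show T1.piecewise _ _ p = _
    rw [Set.piecewise_eq_of_notMem _ _ _ hp]
  -- the key comparison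
  have key : ∀ (F g : ℂ × ℂ → ℝ≥0∞) (B : ℝ), (∀ p ∈ T1, F p ≤ g p) →
      ∫⁻ p in T, ENNReal.ofReal (‖CX p‖ ^ 2 * OM p) * g p ≤ ENNReal.ofReal (D * h ^ 2 * B) →
      ∫⁻ p, w p * F p ≤ ENNReal.ofReal B := by
    intro F g B hFg hB
    calc ∫⁻ p, w p * F p ≤ ∫⁻ p, T.indicator (fun p => ENNReal.ofReal (D * h ^ 2)⁻¹ *
          (ENNReal.ofReal (‖CX p‖ ^ 2 * OM p) * g p)) p := by
          apply lintegral_mono
          intro p
          by_cases hp : p ∈ T1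
          · rw [Set.indicator_of_mem (hsub hp)]
            show w p * F p ≤ _
            rw [hw1 p hp, mul_assoc]
            gcongr
            exact hFg p hp
          · show w p * F p ≤ _
            rw [hw0 p hp, zero_mul]
            exact zero_le
      _ = ENNReal.ofReal (D * h ^ 2)⁻¹ * ∫⁻ p in T, ENNReal.ofReal (‖CX p‖ ^ 2 * OM p) * g p := by
          rw [lintegral_indicator hT.measurableSet, lintegral_const_mul' _ _ ENNReal.ofReal_ne_top]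
      _ ≤ ENNReal.ofReal (D * h ^ 2)⁻¹ * ENNReal.ofReal (D * h ^ 2 * B) := by gcongr
      _ = ENNReal.ofReal B := by
          rw [← ENNReal.ofReal_mul (by positivity)]
          congr 1
          field_simp
  let ν : Measure (ℂ × ℂ) := volume.withDensity w
  have hνS : ∀ S : Set (ℂ × ℂ), MeasurableSet S → ∀ (g : ℂ × ℂ → ℝ≥0∞) (B : ℝ), (∀ p ∈ T1, p ∈ S → 1 ≤ g p) →
      ∫⁻ p in T, ENNReal.ofReal (‖CX p‖ ^ 2 * OM p) * g p ≤ ENNReal.ofReal (D * h ^ 2 * B) →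
      ν S ≤ ENNReal.ofReal B := by
    intro S hS g B hg hB
    show volume.withDensity w S ≤ _
    rw [withDensity_apply _ hS, ← lintegral_indicator hS]
    refine le_trans (le_of_eq ?_) (key (S.indicator fun _ => 1) g B ?_ hB)
    · congr 1
      funext p
      by_cases hp : p ∈ S
      · rw [Set.indicator_of_mem hp, Set.indicator_of_mem hp, mul_one]
      · rw [Set.indicator_of_notMem hp, Set.indicator_of_notMem hp, mul_zero]
    · intro p hp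
      by_cases hpS : p ∈ S
      · rw [Set.indicator_of_mem hpS]
        exact hg p hp hpS
      · rw [Set.indicator_of_notMem hpS]
        exact zero_le
  have hνF : ∀ F : ℂ × ℂ → ℝ≥0∞, Measurable F → ∫⁻ p, F p ∂ν = ∫⁻ p, w p * F p := by
    intro F hF
    show ∫⁻ p, F p ∂(volume.withDensity w) = _
    rw [lintegral_withDensity_eq_lintegral_mul _ hw hF]
    rfl
  let zx : ℂ × ℂ → ℂ := T1.piecewise CX (fun _ => 1)
  let zv : ℂ × ℂ → ℂ := T1.piecewise CV (fun _ => 0)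
  let M : ℂ × ℂ → ℝ := T1.piecewise (fun p => X p + Y p + 1) (fun _ => 1)
  let S : ℂ × ℂ → ℝ := fun p => Real.sqrt (‖CX p‖ ^ 2 + ‖CV p‖ ^ 2)
  let a : ℂ × ℂ → ℝ := T1.piecewise (fun p => max (X p) (‖CX p‖ / S p)) (fun _ => 1)
  let ae : ℂ × ℂ → ℝ := T1.piecewise E (fun _ => 0)
  have hSpos : ∀ p ∈ T1, 0 < S p := by
    intro p hp
    apply Real.sqrt_pos.2
    have : 0 < ‖CX p‖ := norm_pos_iff.2 (hne p hp)
    positivity
  have cS : ContinuousOn S T1 := by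
    apply Real.continuous_sqrt.comp_continuousOn
    exact (cCX1.norm.pow 2).add (cCV1.norm.pow 2)
  have mzx : Measurable zx := cCX1.measurable_piecewise continuousOn_const hT1m
  have mzv : Measurable zv := cCV1.measurable_piecewise continuousOn_const hT1m
  have mM : Measurable M := ((cX1.add cY1).add continuousOn_const).measurable_piecewise continuousOn_const hT1m
  have ma : Measurable a := (cX1.sup (cCX1.norm.div cS (fun p hp => (hSpos p hp).ne'))).measurable_piecewise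
    continuousOn_const hT1m
  have mae : Measurable ae := cE1.measurable_piecewise continuousOn_const hT1m
  have ezx : ∀ p ∈ T1, zx p = CX p := fun p hp => Set.piecewise_eq_of_mem _ _ _ hp
  have ezv : ∀ p ∈ T1, zv p = CV p := fun p hp => Set.piecewise_eq_of_mem _ _ _ hp
  have eM : ∀ p ∈ T1, M p = X p + Y p + 1 := fun p hp => Set.piecewise_eq_of_mem _ _ _ hp
  have ea : ∀ p ∈ T1, a p = max (X p) (‖CX p‖ / S p) := fun p hp => Set.piecewise_eq_of_mem _ _ _ hp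
  have eae : ∀ p ∈ T1, ae p = E p := fun p hp => Set.piecewise_eq_of_mem _ _ _ hp
  have nzx : ∀ p, p ∉ T1 → zx p = 1 := fun p hp => Set.piecewise_eq_of_notMem _ _ _ hp
  have nzv : ∀ p, p ∉ T1 → zv p = 0 := fun p hp => Set.piecewise_eq_of_notMem _ _ _ hp
  have nM : ∀ p, p ∉ T1 → M p = 1 := fun p hp => Set.piecewise_eq_of_notMem _ _ _ hp
  have na : ∀ p, p ∉ T1 → a p = 1 := fun p hp => Set.piecewise_eq_of_notMem _ _ _ hp
  have nae : ∀ p, p ∉ T1 → ae p = 0 := fun p hp => Set.piecewise_eq_of_notMem _ _ _ hp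
  have c1 : ∀ q, zx q ≠ 0 ∧ 0 < a q ∧ 0 ≤ M q ∧ 0 ≤ ae q := by
    intro q
    by_cases hq : q ∈ T1
    · rw [ezx q hq, ea q hq, eM q hq, eae q hq]
      have h1 : 0 < ‖CX q‖ := norm_pos_iff.2 (hne q hq)
      refine ⟨hne q hq, lt_max_of_lt_right (div_pos h1 (hSpos q hq)), ?_, pE q (hsub hq)⟩
      have := pX q (hsub hq)
      have := pY q (hsub hq)
      linarith
    · rw [nzx q hq, na q hq, nM q hq, nae q hq]
      exact ⟨one_ne_zero, one_pos, zero_le_one, le_rfl⟩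
  have c2 : ∀ q, a q * Real.sqrt (‖zx q‖ ^ 2 + ‖zv q‖ ^ 2) ≤ ae q + ‖zx q‖ * M q := by
    intro q
    by_cases hq : q ∈ T1
    · rw [ezx q hq, ezv q hq, ea q hq, eM q hq, eae q hq]
      have h1 := hineq q (hsub hq)
      have h2 := hSpos q hq
      have h3 := norm_nonneg (CX q)
      have h4 := pE q (hsub hq)
      have h5 := pX q (hsub hq)
      have h6 := pY q (hsub hq)
      change max (X q) (‖CX q‖ / S q) * S q ≤ _
      rw [max_mul_of_nonneg _ _ h2.le]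
      apply max_le
      · refine h1.trans ?_
        nlinarith
      · rw [div_mul_cancel₀ _ h2.ne']
        nlinarith [mul_nonneg h3 h5, mul_nonneg h3 h6]
    · rw [nzx q hq, na q hq, nM q hq, nae q hq, nzv q hq]
      simp
  -- the set of small `a`
  have hA : ∀ B : ℝ, ∫⁻ p in T, ENNReal.ofReal (‖CX p‖ ^ 2 * OM p) * g2 p ≤ ENNReal.ofReal (D * h ^ 2 * B) →
      ν {q | a q ^ 2 ≤ h * dd ^ m} ≤ ENNReal.ofReal B := by
    intro B hB
    refine hνS _ (measurableSet_le (ma.pow_const 2) measurable_const) g2 B ?_ hB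
    intro p hp hpS
    apply hg2 p (hsub hp)
    have h1 : a p ^ 2 ≤ h * dd ^ m := hpS
    rw [ea p hp] at h1
    have h2 := pX p (hsub hp)
    have h3 : X p ≤ max (X p) (‖CX p‖ / S p) := le_max_left _ _
    nlinarith
  have hone : 1 ≤ h * dd ^ m := by
    have h1 : h * h⁻¹ ^ 5 ≤ h * dd ^ m := by gcongr
    have h2 : h * h⁻¹ ^ 5 = h⁻¹ ^ 4 := by field_simp
    have h3 : 1 ≤ h⁻¹ ^ 4 := by
      apply one_le_pow₀
      rw [one_le_inv₀ h0]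
      linarith
    linarith
  have hm0 : (0 : ℝ) < m := by exact_mod_cast hm1
  have c3 : ν {q | ε * m ≤ Real.log (M q ^ 2 / a q ^ 2)} ≤ ENNReal.ofReal ε := by
    have hS1 : MeasurableSet {q | ε * m ≤ Real.log (M q ^ 2 / a q ^ 2)} :=
      measurableSet_le measurable_const (Real.measurable_log.comp ((mM.pow_const 2).div (ma.pow_const 2)))
    have hS2 : MeasurableSet {q | a q ^ 2 ≤ h * dd ^ m} := measurableSet_le (ma.pow_const 2) measurable_const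
    have e1 := hA (ε / 2) b2'
    have e2 : ν ({q | ε * m ≤ Real.log (M q ^ 2 / a q ^ 2)} \ {q | a q ^ 2 ≤ h * dd ^ m}) ≤ ENNReal.ofReal (ε / 2) := by
      refine hνS _ (hS1.diff hS2) g3 (ε / 2) ?_ b3
      intro p hp hpS
      have h1 : ε * m ≤ Real.log (M p ^ 2 / a p ^ 2) := hpS.1
      have h2 : ¬ (a p ^ 2 ≤ h * dd ^ m) := hpS.2
      rw [not_le] at h2
      have h3 : ‖CX p‖ / S p ≤ 1 := by
        rw [div_le_one (hSpos p hp)]
        apply Real.le_sqrt_of_sq_le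
        nlinarith [sq_nonneg ‖CV p‖]
      have h5 : a p = X p := by
        rw [ea p hp]
        apply max_eq_left
        by_contra h6
        rw [not_le] at h6
        rw [ea p hp, max_eq_right h6.le] at h2
        have h7 : 0 ≤ ‖CX p‖ / S p := div_nonneg (norm_nonneg _) (hSpos p hp).le
        nlinarith
      rw [h5] at h1 h2
      rw [eM p hp] at h1
      exact hg3 p (hsub hp) h2 h1
    calc ν {q | ε * m ≤ Real.log (M q ^ 2 / a q ^ 2)} ≤ ν ({q | a q ^ 2 ≤ h * dd ^ m} ∪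
          ({q | ε * m ≤ Real.log (M q ^ 2 / a q ^ 2)} \ {q | a q ^ 2 ≤ h * dd ^ m})) := by
          apply measure_mono
          intro q hq
          by_cases h1 : q ∈ {q | a q ^ 2 ≤ h * dd ^ m}
          · exact Or.inl h1
          · exact Or.inr ⟨hq, h1⟩
      _ ≤ ν {q | a q ^ 2 ≤ h * dd ^ m} + ν ({q | ε * m ≤ Real.log (M q ^ 2 / a q ^ 2)} \ {q | a q ^ 2 ≤ h * dd ^ m}) :=
          measure_union_le _ _
      _ ≤ ENNReal.ofReal (ε / 2) + ENNReal.ofReal (ε / 2) := add_le_add e1 e2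
      _ = ENNReal.ofReal ε := by
          rw [← ENNReal.ofReal_add (by positivity) (by positivity), add_halves]
  have c0 : ν univ ≤ ENNReal.ofReal K0 := hνS univ MeasurableSet.univ (fun _ => 1) K0 (fun _ _ _ => le_rfl) b0
  have c4 : ∫⁻ q, ENNReal.ofReal (ae q ^ 2 / ‖zx q‖ ^ 2) ∂ν ≤ ENNReal.ofReal (K0 / h ^ 2) := by
    have m4 : Measurable fun q => ENNReal.ofReal (ae q ^ 2 / ‖zx q‖ ^ 2) :=
      ((mae.pow_const 2).div (mzx.norm.pow_const 2)).ennreal_ofReal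
    rw [hνF _ m4]
    refine key _ g4 _ ?_ b4
    intro p hp
    rw [eae p hp, ezx p hp]
    exact hg4 p (hsub hp) (hne p hp)
  have c5 := hA _ b2
  have fin := hCU (ℂ × ℂ) ν zx zv a M ae h ε dd m mzx mzv ma mM mae c1 c2 h0 h4 hε.le hdd hm5 hm6 c0 c3 c4 c5
  have mF : Measurable fun q => ENNReal.ofReal (Real.log ((‖zx q‖ ^ 2 + ‖zv q‖ ^ 2) / (‖zx q‖ ^ 2 + (h ^ 2) ^ 2 * ‖zv q‖ ^ 2))) := by
    apply Measurable.ennreal_ofReal
    apply Real.measurable_log.comp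
    exact ((mzx.norm.pow_const 2).add (mzv.norm.pow_const 2)).div
      ((mzx.norm.pow_const 2).add ((mzv.norm.pow_const 2).const_mul _))
  rw [hνF _ mF] at fin
  calc ∫⁻ p in T, ENNReal.ofReal (Real.log ((‖CX p‖ ^ 2 + ‖CV p‖ ^ 2) / (‖CX p‖ ^ 2 + (h ^ 2) ^ 2 * ‖CV p‖ ^ 2)) *
        ‖CX p‖ ^ 2 * OM p)
      ≤ ∫⁻ p, ENNReal.ofReal (D * h ^ 2) * (w p * ENNReal.ofReal (Real.log ((‖zx p‖ ^ 2 + ‖zv p‖ ^ 2) /
          (‖zx p‖ ^ 2 + (h ^ 2) ^ 2 * ‖zv p‖ ^ 2)))) := by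
        rw [← lintegral_indicator hT.measurableSet]
        apply lintegral_mono
        intro p
        show T.indicator _ p ≤ ENNReal.ofReal (D * h ^ 2) * (w p * ENNReal.ofReal (Real.log ((‖zx p‖ ^ 2 + ‖zv p‖ ^ 2) /
          (‖zx p‖ ^ 2 + (h ^ 2) ^ 2 * ‖zv p‖ ^ 2))))
        by_cases hpT : p ∈ T
        · rw [Set.indicator_of_mem hpT]
          by_cases hp : p ∈ T1
          · rw [hw1 p hp, ezx p hp, ezv p hp]
            have q0 : 0 ≤ ‖CX p‖ ^ 2 * OM p := mul_nonneg (by positivity) (pOM p hpT)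
            rw [← mul_assoc, ← mul_assoc, ← ENNReal.ofReal_mul hDh.le, mul_inv_cancel₀ hDh.ne', ENNReal.ofReal_one,
              one_mul, ← ENNReal.ofReal_mul q0]
            apply le_of_eq
            congr 1
            ring
          · have h1 : CX p = 0 := by
              by_contra h2
              exact hp ⟨hpT, h2⟩
            rw [h1, norm_zero]
            simp
        · rw [Set.indicator_of_notMem hpT]
          exact zero_le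
    _ = ENNReal.ofReal (D * h ^ 2) * ∫⁻ p, w p * ENNReal.ofReal (Real.log ((‖zx p‖ ^ 2 + ‖zv p‖ ^ 2) /
          (‖zx p‖ ^ 2 + (h ^ 2) ^ 2 * ‖zv p‖ ^ 2))) := lintegral_const_mul' _ _ ENNReal.ofReal_ne_top
    _ ≤ ENNReal.ofReal (D * h ^ 2) * ENNReal.ofReal (CU * (ε * Real.log (1 / h) + 1)) := by gcongr
    _ = ENNReal.ofReal (D * h ^ 2 * (CU * (ε * Real.log (1 / h) + 1))) := by
        rw [← ENNReal.ofReal_mul hDh.le]

/-! ### Continuity -/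

theorem WP0_nq_cont : Continuous (nq : E3 → ℝ) := by
  unfold nq
  fun_prop

theorem WP0_crs_cont : Continuous fun p : E3 × E3 => crs p.1 p.2 := by
  apply continuous_pi
  intro i
  fin_cases i
  · show Continuous fun p : E3 × E3 => p.1 1 * p.2 2 - p.1 2 * p.2 1
    fun_prop
  · show Continuous fun p : E3 × E3 => p.1 2 * p.2 0 - p.1 0 * p.2 2
    fun_prop
  · show Continuous fun p : E3 × E3 => p.1 0 * p.2 1 - p.1 1 * p.2 0
    fun_prop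

theorem WP0_nq_nonneg (v : E3) : 0 ≤ nq v := Finset.sum_nonneg (fun i _ => Complex.normSq_nonneg _)

theorem WP0_pq_le (v : E3) : pq v ≤ nq v := by
  unfold pq nq
  rw [Fin.sum_univ_three]
  linarith [Complex.normSq_nonneg (v 2)]

theorem WP0_Af_nonneg {d : ℕ} (f : Endo 2 d) (m : ℕ) (ι : Fin 2) (c : ℂ) (κ : ℝ) (γ : ℂ → ℂ) (p a : ℂ × ℂ) :
    0 ≤ Af f m ι c κ γ p a := div_nonneg (WP0_nq_nonneg _) (sq_nonneg _)

theorem WP0_TB_open (a r : ℝ) : IsOpen (P2U.TB a r) := by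
  have h1 : IsOpen {p : ℂ × ℂ | ‖p.1‖ < a} := isOpen_lt (by fun_prop) continuous_const
  have h2 : IsOpen {p : ℂ × ℂ | ‖p.2‖ < r} := isOpen_lt (by fun_prop) continuous_const
  exact h1.inter h2

theorem WP0_contG {O : Set (ℂ × ℂ)} {G : ℂ × ℂ → E3} (hG : AnalyticOnNhd ℂ G O) (hp : ∀ q ∈ O, 0 < pq (G q))
    {A : ℂ × ℂ → ℂ × ℂ} (hA : ContinuousOn A O) :
    ContinuousOn (fun q => nq (crs (G q) (fderiv ℂ G q (A q))) / nq (G q) ^ 2) O := by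
  have hG' : AnalyticOnNhd ℂ (fderiv ℂ G) O := hG.fderiv
  have h1 : ContinuousOn (fun q => fderiv ℂ G q (A q)) O := hG'.continuousOn.clm_apply hA
  have h2 : ContinuousOn (fun q => nq (crs (G q) (fderiv ℂ G q (A q)))) O :=
    WP0_nq_cont.comp_continuousOn (WP0_crs_cont.comp_continuousOn (hG.continuousOn.prodMk h1))
  have h3 : ContinuousOn (fun q => nq (G q) ^ 2) O := (WP0_nq_cont.comp_continuousOn hG.continuousOn).pow 2
  refine h2.div h3 ?_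
  intro q hq
  have h4 := hp q hq
  have h5 := WP0_pq_le (G q)
  have h6 : 0 < nq (G q) := by linarith
  positivity

theorem WP0_contAf (hWHO : WHO_stmt) {d : ℕ} {f : Endo 2 d} {U : Set (PP 2)} {τ κ C0 α : ℝ} (hW : WC f U τ κ C0 α)
    {ι : Fin 2} {c : ℂ} {γ : ℂ → ℂ} (hT : Tb U τ ι c κ γ) (m : ℕ) {A : ℂ × ℂ → ℂ × ℂ}
    (hA : ContinuousOn A (P2U.TB 1 τ)) : ContinuousOn (fun q => Af f m ι c κ γ q (A q)) (P2U.TB 1 τ) := by
  have hG : AnalyticOnNhd ℂ (fun p => It f m (gp ι c κ γ p)) (P2U.TB 1 τ) :=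
    (hWHO d f ι c κ γ m hT.hd).1.mono (fun p hp => hp.1)
  have h1 := WP0_contG hG (fun q hq => (hW.nz ι c γ hT m q hq).1) hA
  exact h1

theorem WP0_comp {O : Set (ℂ × ℂ)} {G : ℂ × ℂ → E3} (hG : AnalyticOnNhd ℂ G O) (i : Fin 3) :
    AnalyticOnNhd ℂ (fun p => G p i) O :=
  fun p hp => ((ContinuousLinearMap.proj (R := ℂ) (φ := fun _ : Fin 3 => ℂ) i).analyticAt _).comp (hG p hp)

theorem WP0_contW {O : Set (ℂ × ℂ)} {P Q : ℂ × ℂ → ℂ} (hP : AnalyticOnNhd ℂ P O) (hQ : AnalyticOnNhd ℂ Q O) (v : ℂ × ℂ) :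
    ContinuousOn (fun p => Q p * fderiv ℂ P p v - P p * fderiv ℂ Q p v) O :=
  (hQ.continuousOn.mul (hP.fderiv.continuousOn.clm_apply continuousOn_const)).sub
    (hP.continuousOn.mul (hQ.fderiv.continuousOn.clm_apply continuousOn_const))

/-! ### The row -/

theorem WP0_Sc_mem {ξ0 : ℂ} {ρ κ h : ℝ} (hρ : 0 < ρ) (hκ : 0 < κ) {p : ℂ × ℂ} (hp : p ∈ P2U.TB 2 h) :
    Sc ξ0 ρ κ p ∈ RG ξ0 ρ (κ * ρ * h) := by
  refine ⟨?_, ?_⟩
  · show ‖ξ0 + ρ * p.1 - ξ0‖ < 2 * ρ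
    rw [add_sub_cancel_left, norm_mul, Complex.norm_real, Real.norm_eq_abs, abs_of_pos hρ]
    have := hp.1
    nlinarith
  · show ‖(κ : ℂ) * (ρ * p.2)‖ < κ * ρ * h
    rw [norm_mul, norm_mul, Complex.norm_real, Complex.norm_real, Real.norm_eq_abs, Real.norm_eq_abs, abs_of_pos hρ,
      abs_of_pos hκ, ← mul_assoc]
    have := hp.2
    gcongr

theorem WP0_RG_sub {ξ0 : ℂ} {ρ s τ : ℝ} (hξ0 : ‖ξ0‖ ≤ 1 / 16) (hρ1 : ρ ≤ 1 / 16) (hs : s ≤ τ / 2) :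
    RG ξ0 ρ s ⊆ P2U.TB (1 / 2) (τ / 2) := by
  intro q hq
  have h1 : ‖q.1 - ξ0‖ < 2 * ρ := hq.1
  have h2 : ‖q.2‖ < s := hq.2
  refine ⟨?_, by linarith⟩
  have h3 := norm_add_le (q.1 - ξ0) ξ0
  rw [sub_add_cancel] at h3
  linarith

theorem WP0_log {d : ℕ} (hd : 2 ≤ d) {h : ℝ} {m : ℕ} (hh : 0 < h) (hm6 : (d : ℝ) ^ m ≤ h⁻¹ ^ 6) :
    h ^ 6 ≤ (1 / 2) ^ m ∧ (m : ℝ) / 12 ≤ Real.log (1 / h) := by
  have hd2 : (2 : ℝ) ≤ d := by exact_mod_cast hd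
  have h1 : (2 : ℝ) ^ m ≤ (d : ℝ) ^ m := by gcongr
  have h2 : (2 : ℝ) ^ m ≤ h⁻¹ ^ 6 := h1.trans hm6
  constructor
  · rw [inv_pow] at h2
    rw [one_div, inv_pow]
    exact (le_inv_comm₀ (by positivity) (by positivity)).1 h2
  · have h3 := Real.log_le_log (by positivity) h2
    rw [Real.log_pow, Real.log_pow] at h3
    have h4 := Real.log_two_gt_d9
    rw [one_div]
    have h5 : (0 : ℝ) ≤ m := Nat.cast_nonneg m
    push_cast at h3
    nlinarith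

theorem WP0 (hUR3 : P2U.UR3_stmt) (hWHO : WHO_stmt) (hWM2 : WM2_stmt) (hWIA : WIA_stmt) (hWSD : WSD_stmt)
    (hWPA : WPA_stmt) (hWPB : WPB_stmt) (hWPL : WPL_stmt) : WP0_stmt := by
  intro d f U hd τ κ Λ1 C0 α hτ hκ hκ1 hΛ hW
  obtain ⟨CM, hCM0, hCM⟩ := hWM2 d f U hd τ κ C0 α hτ hκ hκ1 hW
  obtain ⟨CI, hCI0, hCI⟩ := hWIA d f U hd τ κ C0 α hτ hκ hκ1 hW
  obtain ⟨CS, hCS0, hCS⟩ := hWSD d f U hd τ κ C0 α hτ hκ hκ1 hW
  have hπ := Real.pi_pos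
  obtain ⟨CU, hCU0, hCU⟩ := WP0_abs hUR3 (1 + 2 * Real.pi * CM + CI + 2 * Real.pi * CS) (by
    have h1 : 0 < Real.pi * CM := by positivity
    have h2 : 0 < Real.pi * CS := by positivity
    nlinarith)
  refine ⟨CU + 256, by positivity, ?_⟩
  intro ρ μ0 ε hρ hρ1 hκρ hμ0 hε
  obtain ⟨m0, s1, hs1, hSD⟩ := hCS ρ μ0 hρ hρ1 hμ0
  obtain ⟨m2, hm2⟩ := exists_pow_lt_of_lt_one (show 0 < (min s1 (1 / 4)) ^ 6 by positivity) (show (1 / 2 : ℝ) < 1 by norm_num)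
  obtain ⟨m3, hm3⟩ := exists_nat_ge (max (2 * Real.log 16 / ε) (48 * Real.pi * CS / ε))
  refine ⟨m0 + m2 + m3 + 1, ?_⟩
  intro m hm
  obtain ⟨CP, hCP0, hCP⟩ := hWPL d f U hd τ κ C0 α hτ hκ hκ1 hW (Λ1 * m) m
  obtain ⟨n1, hn1⟩ := exists_nat_ge (16 * CP / (ε ^ 2 * m))
  refine ⟨m + n1, ?_⟩
  intro h hh hm5 hm6 ι c γ n N ξ0 hT hn hnN hξ0 hμ hQR
  have hmpos : (0 : ℝ) < m := by
    have : 0 < m := by omega
    exact_mod_cast this
  have hd2 : (2 : ℝ) ≤ d := by exact_mod_cast hd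
  obtain ⟨hl1, hl2⟩ := WP0_log hd hh hm6
  have hhmin : h < min s1 (1 / 4) := by
    apply lt_of_pow_lt_pow_left₀ 6 (by positivity)
    refine (hl1.trans ?_).trans_lt hm2
    apply pow_le_pow_of_le_one (by norm_num) (by norm_num)
    omega
  have hh4 : h ≤ 1 / 4 := (hhmin.trans_le (min_le_right _ _)).le
  have hhs1 : h < s1 := hhmin.trans_le (min_le_left _ _)
  have hlog : 0 < Real.log (1 / h) := by
    have : (0 : ℝ) < (m : ℝ) / 12 := by positivity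
    linarith
  have hm3' : (m3 : ℝ) ≤ m := by
    have : m3 ≤ m := by omega
    exact_mod_cast this
  have hm31 : 2 * Real.log 16 / ε ≤ m := (le_max_left _ _).trans (hm3.trans hm3')
  have hm32 : 48 * Real.pi * CS / ε ≤ m := (le_max_right _ _).trans (hm3.trans hm3')
  rw [div_le_iff₀ hε] at hm31 hm32
  set s : ℝ := κ * ρ * h with hs
  have hκρ1 : κ * ρ ≤ 1 := by nlinarith
  have hs0 : 0 < s := by positivity
  have hsh : s ≤ h := by
    rw [hs]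
    nlinarith
  have hsτ : 8 * s ≤ τ := by
    rw [hs]
    have h1 : κ * ρ * h ≤ κ * ρ * (1 / 4) := by gcongr
    linarith
  have hDn : (0 : ℝ) < (d : ℝ) ^ n := by positivity
  have hRG : RG ξ0 ρ s ⊆ P2U.TB (1 / 2) (τ / 2) := WP0_RG_sub hξ0 hρ1 (by linarith)
  have hRG1 : RG ξ0 ρ s ⊆ P2U.TB 1 τ := fun q hq => ⟨by linarith [(hRG hq).1], by linarith [(hRG hq).2]⟩
  have hScm : ∀ p ∈ P2U.TB 2 h, Sc ξ0 ρ κ p ∈ RG ξ0 ρ s := fun p hp => WP0_Sc_mem hρ hκ hp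
  have hT4 : P2U.TB 2 h ⊆ P2U.TB 4 1 := fun p hp => ⟨by linarith [hp.1], by linarith [hp.2]⟩
  obtain ⟨hB1, hB2⟩ := hWPB d f U hd τ κ C0 α hτ hκ hκ1 hW ι c γ n ξ0 ρ h hT hξ0 hρ hρ1 hκρ hh (by linarith)
  have hA := fun p hp => hWPA d f U hd τ κ C0 α hτ hκ hκ1 hW ι c γ m n ξ0 ρ p hT hξ0 hρ hρ1 hκρ hp
  have hRGo : IsOpen (RG ξ0 ρ s) := by
    have h1 : IsOpen {q : ℂ × ℂ | ‖q.1 - ξ0‖ < 2 * ρ} := isOpen_lt (by fun_prop) continuous_const
    have h2 : IsOpen {q : ℂ × ℂ | ‖q.2‖ < s} := isOpen_lt (by fun_prop) continuous_const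
    exact h1.inter h2
  -- continuity
  have aF : AnalyticOnNhd ℂ (sF f n ι c κ γ ξ0 ρ) (P2U.TB 2 h) :=
    ((hWHO d f ι c κ γ n hT.hd).2 ξ0 ρ hξ0 hρ hρ1).mono (fun p hp => (hT4 hp).1)
  have aP : AnalyticOnNhd ℂ (sP f n ι c κ γ ξ0 ρ) (P2U.TB 2 h) := WP0_comp aF 0
  have aQ : AnalyticOnNhd ℂ (sQ f n ι c κ γ ξ0 ρ) (P2U.TB 2 h) := WP0_comp aF 1
  have aG : AnalyticOnNhd ℂ (fun p => It f n (gp ι c κ γ p)) (P2U.TB 1 τ) :=
    (hWHO d f ι c κ γ n hT.hd).1.mono (fun p hp => hp.1)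
  have aGP : AnalyticOnNhd ℂ (gP f n ι c κ γ) (P2U.TB 1 τ) := WP0_comp aG 0
  have aGQ : AnalyticOnNhd ℂ (gQ f n ι c κ γ) (P2U.TB 1 τ) := WP0_comp aG 1
  have cCX : ContinuousOn (P2U.cx (sP f n ι c κ γ ξ0 ρ) (sQ f n ι c κ γ ξ0 ρ)) (P2U.TB 2 h) := WP0_contW aP aQ (1, 0)
  have cCV : ContinuousOn (P2U.cv (sP f n ι c κ γ ξ0 ρ) (sQ f n ι c κ γ ξ0 ρ)) (P2U.TB 2 h) := WP0_contW aP aQ (0, 1)
  have cw1 : ContinuousOn (w1 (gP f n ι c κ γ) (gQ f n ι c κ γ)) (P2U.TB 1 τ) := WP0_contW aGP aGQ (1, 0)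
  have cw2 : ContinuousOn (w2 (gP f n ι c κ γ) (gQ f n ι c κ γ)) (P2U.TB 1 τ) := WP0_contW aGP aGQ (0, 1)
  have cev : ContinuousOn (ev (gP f n ι c κ γ) (gQ f n ι c κ γ)) (P2U.TB 1 τ) := cw2.neg.prodMk cw1
  have cOM : ContinuousOn (P2U.om (sP f n ι c κ γ ξ0 ρ) (sQ f n ι c κ γ ξ0 ρ)) (P2U.TB 2 h) := by
    have h1 : ContinuousOn (fun p => (‖sP f n ι c κ γ ξ0 ρ p‖ ^ 2 + ‖sQ f n ι c κ γ ξ0 ρ p‖ ^ 2) ^ 2) (P2U.TB 2 h) :=
      ((aP.continuousOn.norm.pow 2).add (aQ.continuousOn.norm.pow 2)).pow 2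
    refine h1.inv₀ ?_
    intro p hp
    have h2 := (hW.nz ι c γ hT n (Sc ξ0 ρ κ p) (hRG1 (hScm p hp))).1
    unfold pq at h2
    rw [Complex.normSq_eq_norm_sq, Complex.normSq_eq_norm_sq] at h2
    have h3 : 0 < ‖sP f n ι c κ γ ξ0 ρ p‖ ^ 2 + ‖sQ f n ι c κ γ ξ0 ρ p‖ ^ 2 := h2
    positivity
  have cSc : Continuous (Sc ξ0 ρ κ) := by
    unfold Sc
    fun_prop
  have mSc : MapsTo (Sc ξ0 ρ κ) (P2U.TB 2 h) (P2U.TB 1 τ) := fun p hp => hRG1 (hScm p hp)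
  have cA1 : ContinuousOn (fun q => Af f m ι c κ γ q (1, 0)) (P2U.TB 1 τ) := WP0_contAf hWHO hW hT m continuousOn_const
  have cA2 : ContinuousOn (fun q => Af f m ι c κ γ q (0, 1)) (P2U.TB 1 τ) := WP0_contAf hWHO hW hT m continuousOn_const
  have cA3 : ContinuousOn (fun q => Af f m ι c κ γ q (ev (gP f n ι c κ γ) (gQ f n ι c κ γ) q)) (P2U.TB 1 τ) :=
    WP0_contAf hWHO hW hT m cev
  have cX : ContinuousOn (fun p => Real.sqrt (ρ ^ 2 * Af f m ι c κ γ (Sc ξ0 ρ κ p) (1, 0))) (P2U.TB 2 h) :=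
    Real.continuous_sqrt.comp_continuousOn (continuousOn_const.mul (cA1.comp cSc.continuousOn mSc))
  have cY : ContinuousOn (fun p => Real.sqrt (κ ^ 2 * ρ ^ 2 * Af f m ι c κ γ (Sc ξ0 ρ κ p) (0, 1))) (P2U.TB 2 h) :=
    Real.continuous_sqrt.comp_continuousOn (continuousOn_const.mul (cA2.comp cSc.continuousOn mSc))
  have cE : ContinuousOn (fun p => κ * ρ ^ 2 * Real.sqrt (Af f m ι c κ γ (Sc ξ0 ρ κ p)
      (ev (gP f n ι c κ γ) (gQ f n ι c κ γ) (Sc ξ0 ρ κ p)))) (P2U.TB 2 h) :=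
    continuousOn_const.mul (Real.continuous_sqrt.comp_continuousOn (cA3.comp cSc.continuousOn mSc))
  -- squares
  have eX : ∀ p, Real.sqrt (ρ ^ 2 * Af f m ι c κ γ (Sc ξ0 ρ κ p) (1, 0)) ^ 2 = ρ ^ 2 * Af f m ι c κ γ (Sc ξ0 ρ κ p) (1, 0) :=
    fun p => Real.sq_sqrt (mul_nonneg (sq_nonneg _) (WP0_Af_nonneg _ _ _ _ _ _ _ _))
  -- the comparison with the integral over `q`
  have ball : ∀ (g : ℂ × ℂ → ℝ≥0∞) (B : ℝ), Measurable g → 0 ≤ B →
      (∀ v ∈ ball (0 : ℂ) s, ∫⁻ ξ in ball ξ0 (2 * ρ), ENNReal.ofReal (gt f n ι c κ γ (ξ, v)) * g (ξ, v) ≤ ENNReal.ofReal B) →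
      ∫⁻ p in P2U.TB 2 h, ENNReal.ofReal (‖P2U.cx (sP f n ι c κ γ ξ0 ρ) (sQ f n ι c κ γ ξ0 ρ) p‖ ^ 2 *
        P2U.om (sP f n ι c κ γ ξ0 ρ) (sQ f n ι c κ γ ξ0 ρ) p) * g (Sc ξ0 ρ κ p) ≤
        ENNReal.ofReal ((d : ℝ) ^ n * h ^ 2 * (2 * Real.pi * B)) := by
    intro g B hg hB hv
    rw [hB1 g, hB2 g hg]
    calc ENNReal.ofReal (2 * (d : ℝ) ^ n / (κ * ρ) ^ 2) * ∫⁻ v in ball (0 : ℂ) s, ∫⁻ ξ in ball ξ0 (2 * ρ),
          ENNReal.ofReal (gt f n ι c κ γ (ξ, v)) * g (ξ, v)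
        ≤ ENNReal.ofReal (2 * (d : ℝ) ^ n / (κ * ρ) ^ 2) * ∫⁻ v in ball (0 : ℂ) s, ENNReal.ofReal B := by
          gcongr 1
          exact setLIntegral_mono' measurableSet_ball hv
      _ = ENNReal.ofReal ((d : ℝ) ^ n * h ^ 2 * (2 * Real.pi * B)) := by
          rw [setLIntegral_const, Complex.volume_ball, ← ENNReal.ofReal_pow hs0.le]
          rw [show ((NNReal.pi : NNReal) : ℝ≥0∞) = ENNReal.ofReal Real.pi from by
            rw [ENNReal.ofReal, ← NNReal.coe_real_pi, Real.toNNReal_coe]]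
          rw [← ENNReal.ofReal_mul (by positivity), ← ENNReal.ofReal_mul hB, ← ENNReal.ofReal_mul (by positivity)]
          congr 1
          rw [hs]
          field_simp
  have hb0 : ∫⁻ p in P2U.TB 2 h, ENNReal.ofReal (‖P2U.cx (sP f n ι c κ γ ξ0 ρ) (sQ f n ι c κ γ ξ0 ρ) p‖ ^ 2 *
        P2U.om (sP f n ι c κ γ ξ0 ρ) (sQ f n ι c κ γ ξ0 ρ) p) * 1 ≤
        ENNReal.ofReal ((d : ℝ) ^ n * h ^ 2 * (2 * Real.pi * CM)) := by
    refine ball (fun _ => 1) CM measurable_const hCM0.le ?_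
    intro v hv
    have hv1 : ‖v‖ < τ := by
      have : ‖v‖ < s := by simpa using hv
      linarith
    have h1 := (hCM ι c γ hT n n v v hv1 hv1).2.1
    refine le_trans ?_ h1
    simp only [mul_one]
    apply lintegral_mono_set
    intro ξ hξ
    rw [mem_ball, dist_eq_norm] at hξ
    rw [mem_ball_zero_iff]
    have h3 := norm_add_le (ξ - ξ0) ξ0
    rw [sub_add_cancel] at h3
    linarith
  -- the set of small derivative
  let S2 : Set (ℂ × ℂ) := {q | q ∈ RG ξ0 ρ s ∧ ρ ^ 2 * Af f m ι c κ γ q (1, 0) ≤ h * (d : ℝ) ^ m}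
  have mS2 : MeasurableSet S2 := by
    have c1 : ContinuousOn (fun q => ρ ^ 2 * Af f m ι c κ γ q (1, 0)) (RG ξ0 ρ s) :=
      (continuousOn_const.mul cA1).mono hRG1
    have o1 := c1.isOpen_inter_preimage hRGo (isOpen_Ioi (a := h * (d : ℝ) ^ m))
    have e1 : S2 = RG ξ0 ρ s \ (RG ξ0 ρ s ∩ (fun q => ρ ^ 2 * Af f m ι c κ γ q (1, 0)) ⁻¹' Ioi (h * (d : ℝ) ^ m)) := by
      ext q
      constructor
      · rintro ⟨h1, h2⟩
        refine ⟨h1, fun h3 => ?_⟩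
        have h4 : h * (d : ℝ) ^ m < ρ ^ 2 * Af f m ι c κ γ q (1, 0) := h3.2
        linarith
      · rintro ⟨h1, h2⟩
        refine ⟨h1, ?_⟩
        by_contra h3
        rw [not_le] at h3
        exact h2 ⟨h1, h3⟩
    rw [e1]
    exact hRGo.measurableSet.diff o1.measurableSet
  have hlogS : 0 ≤ CS / Real.log (1 / h) := by positivity
  have hb2 : ∫⁻ p in P2U.TB 2 h, ENNReal.ofReal (‖P2U.cx (sP f n ι c κ γ ξ0 ρ) (sQ f n ι c κ γ ξ0 ρ) p‖ ^ 2 *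
        P2U.om (sP f n ι c κ γ ξ0 ρ) (sQ f n ι c κ γ ξ0 ρ) p) * S2.indicator (fun _ => 1) (Sc ξ0 ρ κ p) ≤
        ENNReal.ofReal ((d : ℝ) ^ n * h ^ 2 * (2 * Real.pi * (CS / Real.log (1 / h)))) := by
    refine ball (S2.indicator fun _ => 1) (CS / Real.log (1 / h)) (measurable_const.indicator mS2) hlogS ?_
    intro v hv
    have hv0 : ‖v‖ < s := by simpa using hv
    have h1 := hSD m n N h (by omega) (by omega) (by omega) hh hm5 hm6 ι c γ ξ0 v hT hξ0 hμ (by linarith) (by linarith)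
    refine le_trans ?_ h1
    unfold ms
    refine le_trans ?_ (lintegral_indicator_le _ _)
    rw [← lintegral_indicator measurableSet_ball]
    apply lintegral_mono
    intro ξ
    show (Metric.ball ξ0 (2 * ρ)).indicator (fun ξ => ENNReal.ofReal (gt f n ι c κ γ (ξ, v)) * S2.indicator (fun _ => 1) (ξ, v)) ξ ≤
      {ξ | ‖ξ - ξ0‖ < 2 * ρ ∧ ρ ^ 2 * Af f m ι c κ γ (ξ, v) (1, 0) ≤ h * (d : ℝ) ^ m}.indicator
        (fun ξ => ENNReal.ofReal (gt f n ι c κ γ (ξ, v))) ξ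
    by_cases hξ : ξ ∈ Metric.ball ξ0 (2 * ρ)
    · rw [Set.indicator_of_mem hξ]
      rw [mem_ball, dist_eq_norm] at hξ
      by_cases hq : (ξ, v) ∈ S2
      · rw [Set.indicator_of_mem hq, mul_one, Set.indicator_of_mem (show ξ ∈ {ξ | ‖ξ - ξ0‖ < 2 * ρ ∧
          ρ ^ 2 * Af f m ι c κ γ (ξ, v) (1, 0) ≤ h * (d : ℝ) ^ m} from ⟨hξ, hq.2⟩)]
      · rw [Set.indicator_of_notMem hq, mul_zero]
        exact zero_le
    · rw [Set.indicator_of_notMem hξ]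
      exact zero_le
  -- the logarithm
  obtain ⟨hQ0, hPL⟩ := hCP ι c γ n N ξ0 ρ s hT hnN hξ0 hρ hρ1 hs0 hsτ
  have hb3 : ∫⁻ p in P2U.TB 2 h, ENNReal.ofReal (‖P2U.cx (sP f n ι c κ γ ξ0 ρ) (sQ f n ι c κ γ ξ0 ρ) p‖ ^ 2 *
        P2U.om (sP f n ι c κ γ ξ0 ρ) (sQ f n ι c κ γ ξ0 ρ) p) *
          (ENNReal.ofReal (2 / (ε * m)) * ENNReal.ofReal (Lf f m (Λ1 * m) ι c κ γ (Sc ξ0 ρ κ p))) ≤
        ENNReal.ofReal ((d : ℝ) ^ n * h ^ 2 * (ε / 2)) := by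
    rw [hB1 (fun q => ENNReal.ofReal (2 / (ε * m)) * ENNReal.ofReal (Lf f m (Λ1 * m) ι c κ γ q))]
    have e1 : ∫⁻ q in RG ξ0 ρ s, ENNReal.ofReal (gt f n ι c κ γ q) *
        (ENNReal.ofReal (2 / (ε * m)) * ENNReal.ofReal (Lf f m (Λ1 * m) ι c κ γ q)) =
        ENNReal.ofReal (2 / (ε * m)) * ∫⁻ q in RG ξ0 ρ s, ENNReal.ofReal (gt f n ι c κ γ q) *
          ENNReal.ofReal (Lf f m (Λ1 * m) ι c κ γ q) := by
      rw [← lintegral_const_mul' _ _ ENNReal.ofReal_ne_top]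
      congr 1
      funext q
      ring
    rw [e1]
    have e2 : 16 * QR f m (Λ1 * m) (4 * s) N ι c κ γ + CP / (d : ℝ) ^ n ≤ ε ^ 2 * m / 8 := by
      have h1 : QR f m (Λ1 * m) (4 * s) N ι c κ γ ≤ ε ^ 2 / 256 * m := by
        refine hQR.trans ?_
        gcongr
        linarith
      have h2 : CP / (d : ℝ) ^ n ≤ ε ^ 2 * m / 16 := by
        have h3 : (n1 : ℝ) ≤ (d : ℝ) ^ n := by
          have h4 : n1 ≤ n := by omega
          have h5 : n < 2 ^ n := Nat.lt_two_pow_self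
          have h6 : 2 ^ n ≤ d ^ n := Nat.pow_le_pow_left hd n
          exact_mod_cast (h4.trans h5.le).trans h6
        have h4 := hn1.trans h3
        rw [div_le_iff₀ (by positivity)] at h4
        rw [div_le_iff₀ hDn]
        nlinarith
      linarith
    calc ENNReal.ofReal (2 * (d : ℝ) ^ n / (κ * ρ) ^ 2) * (ENNReal.ofReal (2 / (ε * m)) *
          ∫⁻ q in RG ξ0 ρ s, ENNReal.ofReal (gt f n ι c κ γ q) * ENNReal.ofReal (Lf f m (Λ1 * m) ι c κ γ q))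
        ≤ ENNReal.ofReal (2 * (d : ℝ) ^ n / (κ * ρ) ^ 2) * (ENNReal.ofReal (2 / (ε * m)) *
          ENNReal.ofReal (s ^ 2 * (16 * QR f m (Λ1 * m) (4 * s) N ι c κ γ + CP / (d : ℝ) ^ n))) := by gcongr
      _ ≤ ENNReal.ofReal (2 * (d : ℝ) ^ n / (κ * ρ) ^ 2) * (ENNReal.ofReal (2 / (ε * m)) *
          ENNReal.ofReal (s ^ 2 * (ε ^ 2 * m / 8))) := by gcongr
      _ = ENNReal.ofReal ((d : ℝ) ^ n * h ^ 2 * (ε / 2)) := by
          rw [← ENNReal.ofReal_mul (by positivity), ← ENNReal.ofReal_mul (by positivity)]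
          congr 1
          rw [hs]
          field_simp
          norm_num
  -- the area of `f^m` on the sheets
  have hb4 : ∫⁻ p in P2U.TB 2 h, ENNReal.ofReal (‖P2U.cx (sP f n ι c κ γ ξ0 ρ) (sQ f n ι c κ γ ξ0 ρ) p‖ ^ 2 *
        P2U.om (sP f n ι c κ γ ξ0 ρ) (sQ f n ι c κ γ ξ0 ρ) p) *
          ENNReal.ofReal (κ ^ 2 * ρ ^ 2 * Af f m ι c κ γ (Sc ξ0 ρ κ p) (ev (gP f n ι c κ γ) (gQ f n ι c κ γ) (Sc ξ0 ρ κ p)) /
            Complex.normSq (w1 (gP f n ι c κ γ) (gQ f n ι c κ γ) (Sc ξ0 ρ κ p))) ≤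
        ENNReal.ofReal ((d : ℝ) ^ n * CI) := by
    rw [hB1 (fun q => ENNReal.ofReal (κ ^ 2 * ρ ^ 2 * Af f m ι c κ γ q (ev (gP f n ι c κ γ) (gQ f n ι c κ γ) q) /
            Complex.normSq (w1 (gP f n ι c κ γ) (gQ f n ι c κ γ) q)))]
    have hI := hCI ι c γ hT m n (by omega)
    calc ENNReal.ofReal (2 * (d : ℝ) ^ n / (κ * ρ) ^ 2) * ∫⁻ q in RG ξ0 ρ s, ENNReal.ofReal (gt f n ι c κ γ q) *
          ENNReal.ofReal (κ ^ 2 * ρ ^ 2 * Af f m ι c κ γ q (ev (gP f n ι c κ γ) (gQ f n ι c κ γ) q) /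
            Complex.normSq (w1 (gP f n ι c κ γ) (gQ f n ι c κ γ) q))
        ≤ ENNReal.ofReal (2 * (d : ℝ) ^ n / (κ * ρ) ^ 2) * ∫⁻ q in RG ξ0 ρ s, ENNReal.ofReal (κ ^ 2 * ρ ^ 2 / 2) *
          ENNReal.ofReal (Af f m ι c κ γ q (ev (gP f n ι c κ γ) (gQ f n ι c κ γ) q) *
            om (gP f n ι c κ γ) (gQ f n ι c κ γ) q / (d : ℝ) ^ n) := by
          gcongr 1
          apply lintegral_mono
          intro q
          show ENNReal.ofReal (gt f n ι c κ γ q) *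
            ENNReal.ofReal (κ ^ 2 * ρ ^ 2 * Af f m ι c κ γ q (ev (gP f n ι c κ γ) (gQ f n ι c κ γ) q) /
              Complex.normSq (w1 (gP f n ι c κ γ) (gQ f n ι c κ γ) q)) ≤ ENNReal.ofReal (κ ^ 2 * ρ ^ 2 / 2) *
            ENNReal.ofReal (Af f m ι c κ γ q (ev (gP f n ι c κ γ) (gQ f n ι c κ γ) q) *
              om (gP f n ι c κ γ) (gQ f n ι c κ γ) q / (d : ℝ) ^ n)
          have a0 := WP0_Af_nonneg f m ι c κ γ q (ev (gP f n ι c κ γ) (gQ f n ι c κ γ) q)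
          have o0 : 0 ≤ om (gP f n ι c κ γ) (gQ f n ι c κ γ) q := by
            unfold om
            positivity
          have n0 := Complex.normSq_nonneg (w1 (gP f n ι c κ γ) (gQ f n ι c κ γ) q)
          have g0 : gt f n ι c κ γ q = (1 / 2) * Complex.normSq (w1 (gP f n ι c κ γ) (gQ f n ι c κ γ) q) *
            om (gP f n ι c κ γ) (gQ f n ι c κ γ) q / (d : ℝ) ^ n := rfl
          rw [g0, ← ENNReal.ofReal_mul (by positivity), ← ENNReal.ofReal_mul (by positivity)]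
          apply ENNReal.ofReal_le_ofReal
          generalize Complex.normSq (w1 (gP f n ι c κ γ) (gQ f n ι c κ γ) q) = x at n0
          generalize om (gP f n ι c κ γ) (gQ f n ι c κ γ) q = y at o0
          generalize Af f m ι c κ γ q (ev (gP f n ι c κ γ) (gQ f n ι c κ γ) q) = z at a0
          rcases n0.eq_or_lt with hx | hx
          · rw [← hx]
            simp only [mul_zero, zero_mul, zero_div]
            positivity
          · apply le_of_eq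
            field_simp
      _ = ENNReal.ofReal (2 * (d : ℝ) ^ n / (κ * ρ) ^ 2) * (ENNReal.ofReal (κ ^ 2 * ρ ^ 2 / 2) *
          ∫⁻ q in RG ξ0 ρ s, ENNReal.ofReal (Af f m ι c κ γ q (ev (gP f n ι c κ γ) (gQ f n ι c κ γ) q) *
            om (gP f n ι c κ γ) (gQ f n ι c κ γ) q / (d : ℝ) ^ n)) := by
          rw [lintegral_const_mul' _ _ ENNReal.ofReal_ne_top]
      _ ≤ ENNReal.ofReal (2 * (d : ℝ) ^ n / (κ * ρ) ^ 2) * (ENNReal.ofReal (κ ^ 2 * ρ ^ 2 / 2) * ENNReal.ofReal CI) := by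
          gcongr 2
          exact (lintegral_mono_set hRG).trans hI
      _ = ENNReal.ofReal ((d : ℝ) ^ n * CI) := by
          rw [← ENNReal.ofReal_mul (by positivity), ← ENNReal.ofReal_mul (by positivity)]
          congr 1
          field_simp
  have hCM' : 0 < Real.pi * CM := by positivity
  have hCS' : 0 < Real.pi * CS := by positivity
  -- assembly
  have fin := hCU (P2U.TB 2 h) (P2U.cx (sP f n ι c κ γ ξ0 ρ) (sQ f n ι c κ γ ξ0 ρ))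
    (P2U.cv (sP f n ι c κ γ ξ0 ρ) (sQ f n ι c κ γ ξ0 ρ)) (P2U.om (sP f n ι c κ γ ξ0 ρ) (sQ f n ι c κ γ ξ0 ρ))
    (fun p => Real.sqrt (ρ ^ 2 * Af f m ι c κ γ (Sc ξ0 ρ κ p) (1, 0)))
    (fun p => Real.sqrt (κ ^ 2 * ρ ^ 2 * Af f m ι c κ γ (Sc ξ0 ρ κ p) (0, 1)))
    (fun p => κ * ρ ^ 2 * Real.sqrt (Af f m ι c κ γ (Sc ξ0 ρ κ p) (ev (gP f n ι c κ γ) (gQ f n ι c κ γ) (Sc ξ0 ρ κ p))))
    (fun p => S2.indicator (fun _ => 1) (Sc ξ0 ρ κ p))
    (fun p => ENNReal.ofReal (2 / (ε * m)) * ENNReal.ofReal (Lf f m (Λ1 * m) ι c κ γ (Sc ξ0 ρ κ p)))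
    (fun p => ENNReal.ofReal (κ ^ 2 * ρ ^ 2 * Af f m ι c κ γ (Sc ξ0 ρ κ p) (ev (gP f n ι c κ γ) (gQ f n ι c κ γ) (Sc ξ0 ρ κ p)) /
            Complex.normSq (w1 (gP f n ι c κ γ) (gQ f n ι c κ γ) (Sc ξ0 ρ κ p))))
    h ε d ((d : ℝ) ^ n) m (WP0_TB_open 2 h) cCX cCV cOM cX cY cE
    (fun p _ => by unfold P2U.om; positivity) (fun p _ => Real.sqrt_nonneg _) (fun p _ => Real.sqrt_nonneg _)
    (fun p _ => by positivity) (fun p hp => (hA p (hT4 hp)).1) hh hh4 hε hd2 hm5 hm6 (by omega) hDn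
    ?_ ?_ ?_ ?_ ?_ ?_ ?_ ?_
  · refine (le_of_eq ?_).trans (fin.trans ?_)
    · rfl
    · apply ENNReal.ofReal_le_ofReal
      gcongr
      linarith
  · intro p hp h1
    rw [eX p] at h1
    show 1 ≤ S2.indicator (fun _ => 1) (Sc ξ0 ρ κ p)
    rw [Set.indicator_of_mem (show Sc ξ0 ρ κ p ∈ S2 from ⟨hScm p hp, h1⟩)]
  · intro p hp h1 h2
    show 1 ≤ ENNReal.ofReal (2 / (ε * m)) * ENNReal.ofReal (Lf f m (Λ1 * m) ι c κ γ (Sc ξ0 ρ κ p))
    rw [eX p] at h1 h2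
    have h3 : 1 ≤ h * (d : ℝ) ^ m := by
      have h4 : h * h⁻¹ ^ 5 ≤ h * (d : ℝ) ^ m := by gcongr
      have h5 : h * h⁻¹ ^ 5 = h⁻¹ ^ 4 := by field_simp
      have h6 : 1 ≤ h⁻¹ ^ 4 := by
        apply one_le_pow₀
        rw [one_le_inv₀ hh]
        linarith
      linarith
    have h4 := (hA p (hT4 hp)).2.2.2 (Λ1 * m) (by positivity) (by linarith)
    have h5 : ε * m / 2 ≤ Lf f m (Λ1 * m) ι c κ γ (Sc ξ0 ρ κ p) := by linarith
    rw [← ENNReal.ofReal_mul (by positivity), ← ENNReal.ofReal_one]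
    apply ENNReal.ofReal_le_ofReal
    calc (1 : ℝ) = 2 / (ε * m) * (ε * m / 2) := by field_simp
      _ ≤ 2 / (ε * m) * Lf f m (Λ1 * m) ι c κ γ (Sc ξ0 ρ κ p) := by gcongr
  · intro p hp hne
    apply ENNReal.ofReal_le_ofReal
    have h1 := (hA p (hT4 hp)).2.1
    have a0 := WP0_Af_nonneg f m ι c κ γ (Sc ξ0 ρ κ p) (ev (gP f n ι c κ γ) (gQ f n ι c κ γ) (Sc ξ0 ρ κ p))
    have h2 : 0 < ‖P2U.cx (sP f n ι c κ γ ξ0 ρ) (sQ f n ι c κ γ ξ0 ρ) p‖ := norm_pos_iff.2 hne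
    rw [h1, mul_pow, Real.sq_sqrt a0]
    have h3 : 0 < ρ ^ 2 * Complex.normSq (w1 (gP f n ι c κ γ) (gQ f n ι c κ γ) (Sc ξ0 ρ κ p)) := by
      rw [← h1]
      positivity
    have h4 : 0 < Complex.normSq (w1 (gP f n ι c κ γ) (gQ f n ι c κ γ) (Sc ξ0 ρ κ p)) := by
      by_contra h5
      rw [not_lt] at h5
      exact absurd h3 (not_lt.2 (mul_nonpos_of_nonneg_of_nonpos (sq_nonneg ρ) h5))
    generalize Complex.normSq (w1 (gP f n ι c κ γ) (gQ f n ι c κ γ) (Sc ξ0 ρ κ p)) = x at h4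
    generalize Af f m ι c κ γ (Sc ξ0 ρ κ p) (ev (gP f n ι c κ γ) (gQ f n ι c κ γ) (Sc ξ0 ρ κ p)) = z at a0
    apply le_of_eq
    field_simp
  · refine hb0.trans (ENNReal.ofReal_le_ofReal ?_)
    gcongr
    linarith
  · refine hb2.trans (ENNReal.ofReal_le_ofReal ?_)
    gcongr
    rw [← mul_div_assoc]
    gcongr
    linarith
  · refine hb2.trans (ENNReal.ofReal_le_ofReal ?_)
    gcongr
    rw [← mul_div_assoc, div_le_iff₀ hlog]
    nlinarith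
  · exact hb3
  · refine hb4.trans (ENNReal.ofReal_le_ofReal ?_)
    rw [mul_assoc]
    gcongr
    rw [mul_div_cancel₀ _ (by positivity : h ^ 2 ≠ 0)]
    linarith

end Pool.Agent.P2W
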