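import Pool.Agent.helper83.P2.SpecX

set_option autoImplicit false

/-!
Row XCH of project P2 (MP_063734_an): an infinite chain, by the contraction principle.
-/

namespace Pool.Agent.P2

open Metric Set Filter Topology Finset

/-- the map whose fixed point is the chain -/
noncomputable def XCH_F (X V : ℕ → ℂ × ℂ → ℂ) (g : ℂ → ℂ) (z : ℕ → ℂ × ℂ) : ℕ → ℂ × ℂ
  | 0 => (X 0 ((z 1).1, (z 0).2), g (z 0).1)
  | k + 1 => (X (k + 1) ((z (k + 2)).1, (z (k + 1)).2), V k ((z (k + 1)).1, (z k).2))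

theorem XCH_mem {p q : ℂ × ℂ} (hp : p ∈ Qd) (hq : q ∈ Qd) : (p.1, q.2) ∈ Qd := by
  rw [mem_closedBall_zero_iff, Prod.norm_def] at *
  exact max_le ((le_max_left _ _).trans hp) ((le_max_right _ _).trans hq)

theorem XCH_pair {a b : ℂ} (ha : ‖a‖ ≤ 1 / 4) (hb : ‖b‖ ≤ 1 / 4) : (a, b) ∈ Qd := by
  rw [mem_closedBall_zero_iff, Prod.norm_def]
  exact max_le ha hb

theorem XCH_dist {p q p' q' : ℂ × ℂ} {D : ℝ} (h : ‖p - p'‖ ≤ D) (h' : ‖q - q'‖ ≤ D) :
    ‖(p.1, q.2) - (p'.1, q'.2)‖ ≤ D := by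
  rw [Prod.norm_def] at *
  exact max_le ((le_max_left _ _).trans h) ((le_max_right _ _).trans h')

theorem XCH_Fmem {X V : ℕ → ℂ × ℂ → ℂ} {g : ℂ → ℂ} (hX : ∀ k, Ctr (X k)) (hV : ∀ k, Ctr (V k))
    (hg : Ctr (fun p => g p.1)) {z : ℕ → ℂ × ℂ} (hz : ∀ k, z k ∈ Qd) : ∀ k, XCH_F X V g z k ∈ Qd
  | 0 => XCH_pair ((hX 0).1 _ (XCH_mem (hz 1) (hz 0))) (hg.1 _ (hz 0))
  | k + 1 => XCH_pair ((hX (k + 1)).1 _ (XCH_mem (hz (k + 2)) (hz (k + 1))))
      ((hV k).1 _ (XCH_mem (hz (k + 1)) (hz k)))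

theorem XCH_Flip {X V : ℕ → ℂ × ℂ → ℂ} {g : ℂ → ℂ} (hX : ∀ k, Ctr (X k)) (hV : ∀ k, Ctr (V k))
    (hg : Ctr (fun p => g p.1)) {z w : ℕ → ℂ × ℂ} (hz : ∀ k, z k ∈ Qd) (hw : ∀ k, w k ∈ Qd) {D : ℝ}
    (hD : ∀ k, ‖z k - w k‖ ≤ D) : ∀ k, ‖XCH_F X V g z k - XCH_F X V g w k‖ ≤ 3 / 4 * D := by
  have key : ∀ h : ℂ × ℂ → ℂ, Ctr h → ∀ i j, ‖h ((z i).1, (z j).2) - h ((w i).1, (w j).2)‖ ≤ 3 / 4 * D := by
    intro h hh i j
    refine (hh.2 _ (XCH_mem (hz i) (hz j)) _ (XCH_mem (hw i) (hw j))).trans ?_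
    exact mul_le_mul_of_nonneg_left (XCH_dist (hD i) (hD j)) (by norm_num)
  intro k
  cases k with
  | zero =>
    rw [Prod.norm_def]
    refine max_le (key _ (hX 0) 1 0) ?_
    refine (hg.2 _ (hz 0) _ (hw 0)).trans ?_
    exact mul_le_mul_of_nonneg_left (hD 0) (by norm_num)
  | succ k =>
    rw [Prod.norm_def]
    exact max_le (key _ (hX (k + 1)) (k + 2) (k + 1)) (key _ (hV k) (k + 1) k)

theorem XCH : XCH_stmt := by
  intro X V g hX hV hg
  have : CompleteSpace Qd := (isClosed_closedBall (x := (0 : ℂ × ℂ)) (ε := 1 / 4)).completeSpace_coe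
  have h0 : (0 : ℂ × ℂ) ∈ Qd := by
    rw [mem_closedBall_zero_iff, norm_zero]
    norm_num
  have : Nonempty Qd := ⟨⟨0, h0⟩⟩
  have hdist : ∀ p q : Qd, dist p q ≤ 1 := by
    intro p q
    have h1 := p.2
    have h2 := q.2
    rw [mem_closedBall_zero_iff] at h1 h2
    rw [Subtype.dist_eq, dist_eq_norm]
    refine (norm_sub_le _ _).trans ?_
    linarith
  let Φ : BoundedContinuousFunction ℕ Qd → BoundedContinuousFunction ℕ Qd := fun z =>
    BoundedContinuousFunction.mkOfDiscrete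
      (fun k => ⟨XCH_F X V g (fun k => (z k : ℂ × ℂ)) k, XCH_Fmem hX hV hg (fun k => (z k).2) k⟩) 1
      (fun _ _ => hdist _ _)
  have hΦ : ContractingWith (3 / 4 : NNReal) Φ := by
    refine ⟨?_, ?_⟩
    · rw [← NNReal.coe_lt_coe]
      norm_num
    · refine LipschitzWith.of_dist_le_mul fun z w => ?_
      rw [BoundedContinuousFunction.dist_le (by positivity)]
      intro k
      have h1 : ∀ k, ‖(z k : ℂ × ℂ) - (w k : ℂ × ℂ)‖ ≤ dist z w := by
        intro k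
        have := BoundedContinuousFunction.dist_coe_le_dist (f := z) (g := w) k
        rwa [Subtype.dist_eq, dist_eq_norm] at this
      have h2 := XCH_Flip hX hV hg (fun k => (z k).2) (fun k => (w k).2) h1 k
      rw [Subtype.dist_eq, dist_eq_norm]
      exact h2
  have hne : Nonempty (BoundedContinuousFunction ℕ Qd) :=
    ⟨BoundedContinuousFunction.const ℕ ⟨0, h0⟩⟩
  obtain ⟨z, hz⟩ : ∃ z, Φ z = z := ⟨_, hΦ.fixedPoint_isFixedPt⟩
  have hk : ∀ k, XCH_F X V g (fun k => (z k : ℂ × ℂ)) k = (z k : ℂ × ℂ) := by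
    intro k
    have h1 : Φ z k = z k := by rw [hz]
    exact congrArg Subtype.val h1
  refine ⟨fun k => (z k : ℂ × ℂ), fun k => (z k).2, ?_, ?_, ?_⟩
  · exact (congrArg Prod.snd (hk 0)).symm
  · intro k
    cases k with
    | zero => exact (congrArg Prod.fst (hk 0)).symm
    | succ k => exact (congrArg Prod.fst (hk (k + 1))).symm
  · intro k
    exact (congrArg Prod.snd (hk (k + 1))).symm

end Pool.Agent.P2
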